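import Pool.Agent.Helper4.MCA.Filt

/-!
Curvature, Bianchi identity.
-/

open scoped TensorProduct

universe u

namespace Pool.Agent.Helper4.MCB.SDGA

variable {K : Type u} [Field K] (C : SDGA K) (n : SimplexCategory)

/-- parity involution -/
noncomputable def eps : C.E n →ₗ[K] C.E n :=
  assemble (C.internal n) (fun i => (-1 : K) ^ i • (C.deg n i).subtype)

variable {C n}

theorem eps_of_mem {i : ℕ} {x : C.E n} (hx : x ∈ C.deg n i) : C.eps n x = (-1 : K) ^ i • x := by
  rw [eps, assemble_of_mem _ _ i x hx]; rfl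

theorem eps_one : C.eps n 1 = 1 := by
  rw [eps_of_mem (C.one_mem n)]; simp

theorem eps_mul (x y : C.E n) : C.eps n (x * y) = C.eps n x * C.eps n y := by
  have h : ∀ j, ∀ y ∈ C.deg n j, ∀ x, C.eps n (x * y) = C.eps n x * C.eps n y := by
    intro j y hy x
    have : C.eps n ∘ₗ LinearMap.mulRight K y = LinearMap.mulRight K (C.eps n y) ∘ₗ C.eps n := by
      apply lin_ext (C.internal n)
      intro i x hx
      simp only [LinearMap.comp_apply, LinearMap.mulRight_apply]
      rw [eps_of_mem (C.mul_mem n i j x y hx hy), eps_of_mem hx, eps_of_mem hy,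
        smul_mul_smul_comm, pow_add]
    exact LinearMap.congr_fun this x
  have : C.eps n ∘ₗ LinearMap.mulLeft K x = LinearMap.mulLeft K (C.eps n x) ∘ₗ C.eps n := by
    apply lin_ext (C.internal n)
    intro j y hy
    exact h j y hy x
  exact LinearMap.congr_fun this y

theorem d_mul (x y : C.E n) : C.d n (x * y) = C.d n x * y + C.eps n x * C.d n y := by
  have : C.d n ∘ₗ LinearMap.mulRight K y =
      LinearMap.mulRight K y ∘ₗ C.d n + LinearMap.mulRight K (C.d n y) ∘ₗ C.eps n := by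
    apply lin_ext (C.internal n)
    intro i x hx
    simp only [LinearMap.comp_apply, LinearMap.mulRight_apply, LinearMap.add_apply]
    rw [C.leibniz n i x y hx, eps_of_mem hx, smul_mul_assoc]
  exact LinearMap.congr_fun this x

end Pool.Agent.Helper4.MCB.SDGA

namespace Pool.Agent.Helper4.MCA

open MCB

theorem sum_range_sub {M : Type*} [AddCommGroup M] {K : Type*} [Field K] [Module K M]
    (P : Submodule K M) (g : ℕ → M) (a b : ℕ) (hab : a ≤ b) (h : ∀ k, a ≤ k → k < b → g k ∈ P) :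
    ∑ k ∈ Finset.range b, g k - ∑ k ∈ Finset.range a, g k ∈ P := by
  induction b, hab using Nat.le_induction with
  | base => rw [sub_self]; exact Submodule.zero_mem _
  | succ b hb ih =>
    rw [Finset.sum_range_succ, add_sub_right_comm]
    exact Submodule.add_mem _ (ih (fun k h1 h2 => h k h1 (by omega))) (h b hb (by omega))

theorem tri_sum {M : Type*} [AddCommMonoid M] (G : ℕ → ℕ → M) (N : ℕ) :
    ∑ s ∈ Finset.range N, ∑ k ∈ Finset.range (N - s), G (k + 1) s =
      ∑ n ∈ Finset.range N, ∑ s ∈ Finset.range (n + 1), G (n - s + 1) s := by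
  induction N with
  | zero => simp
  | succ N ih =>
    rw [Finset.sum_range_succ (fun n => ∑ s ∈ Finset.range (n + 1), G (n - s + 1) s), ← ih]
    have : ∑ s ∈ Finset.range (N + 1), ∑ k ∈ Finset.range (N + 1 - s), G (k + 1) s =
        ∑ s ∈ Finset.range (N + 1), (∑ k ∈ Finset.range (N - s), G (k + 1) s + G (N - s + 1) s) := by
      refine Finset.sum_congr rfl (fun s hs => ?_)
      have hs' := Finset.mem_range.1 hs
      have : N + 1 - s = (N - s) + 1 := by omega
      rw [this, Finset.sum_range_succ]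
    rw [this, Finset.sum_add_distrib]
    congr 1
    rw [Finset.sum_range_succ]
    simp

namespace CAInf

variable {K : Type u} [Field K] (A : CAInf K) (C : SDGA K) (n : SimplexCategory)

/-- the truncated curvature `∑_{k < N} (Q_k ⊗ m_k)(y, …, y) + (1 ⊗ d) y` -/
noncomputable def curv (N : ℕ) (y : A.V ⊗[K] C.E n) : A.V ⊗[K] C.E n :=
  ∑ k ∈ Finset.range N, A.TQ (C.E n) k (fun _ => y) + LinearMap.lTensor A.V (C.d n) y

variable {C n}

theorem curv_nat {C' : SDGA K} {n' : SimplexCategory} (φ : C.E n →ₐ[K] C'.E n')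
    (hφ : ∀ x, φ (C.d n x) = C'.d n' (φ x)) (N : ℕ) (y : A.V ⊗[K] C.E n) :
    LinearMap.lTensor A.V φ.toLinearMap (A.curv C n N y) =
      A.curv C' n' N (LinearMap.lTensor A.V φ.toLinearMap y) := by
  unfold curv
  rw [map_add, map_sum]
  congr 1
  · exact Finset.sum_congr rfl (fun k _ => A.TQ_nat φ k (fun _ => y))
  · rw [← LinearMap.comp_apply, ← LinearMap.comp_apply, ← LinearMap.lTensor_comp,
      ← LinearMap.lTensor_comp]
    congr 2
    ext x
    exact hφ x

theorem curv_congr (N p : ℕ) {y y' : A.V ⊗[K] C.E n} (h : y - y' ∈ A.Fil (C.E n) p) :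
    A.curv C n N y - A.curv C n N y' ∈ A.Fil (C.E n) p := by
  unfold curv
  rw [add_sub_add_comm, ← Finset.sum_sub_distrib, ← map_sub]
  refine Submodule.add_mem _ (Submodule.sum_mem _ (fun k _ => ?_)) (A.lT_Fil _ h)
  cases k with
  | zero =>
    have : (fun _ : Fin 0 => y) = fun _ : Fin 0 => y' := Subsingleton.elim _ _
    rw [this, sub_self]; exact Submodule.zero_mem _
  | succ k =>
    exact A.Fil_anti (by omega) (A.TQ_sub (k + 1) p (fun _ => y) (fun _ => y') (fun _ _ => h))

theorem curv_le (N M : ℕ) (h : N ≤ M) (y : A.V ⊗[K] C.E n) :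
    A.curv C n M y - A.curv C n N y ∈ A.Fil (C.E n) N := by
  unfold curv
  rw [add_sub_add_comm, sub_self, add_zero]
  exact sum_range_sub _ _ _ _ h (fun k hk _ => A.Fil_anti hk (A.TQ_Fil_any k (fun _ => y)))

theorem curv_add (N p : ℕ) (hN : 2 ≤ N) (y u : A.V ⊗[K] C.E n) (hu : u ∈ A.Fil (C.E n) p) :
    A.curv C n N (y + u) - A.curv C n N y -
      (A.TQ (C.E n) 1 (fun _ => u) + LinearMap.lTensor A.V (C.d n) u) ∈
      A.Fil (C.E n) (p + 1) := by
  unfold curv
  obtain ⟨N, rfl⟩ : ∃ N', N = N' + 2 := ⟨N - 2, by omega⟩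
  have h0 : A.TQ (C.E n) 0 (fun _ => y + u) = A.TQ (C.E n) 0 (fun _ => y) := by
    congr 1; exact Subsingleton.elim _ _
  have h1 : A.TQ (C.E n) 1 (fun _ => y + u) = A.TQ (C.E n) 1 (fun _ => y) +
      A.TQ (C.E n) 1 (fun _ => u) := by
    have e : ∀ z : A.V ⊗[K] C.E n, (fun _ : Fin 1 => z) =
        Function.update (fun _ : Fin 1 => (0 : A.V ⊗[K] C.E n)) 0 z := by
      intro z; funext i
      have : i = 0 := Subsingleton.elim _ _
      subst this; simp
    rw [e (y + u), MultilinearMap.map_update_add, ← e, ← e]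
  have h2 : ∑ k ∈ Finset.range N, A.TQ (C.E n) (k + 2) (fun _ => y + u) -
      ∑ k ∈ Finset.range N, A.TQ (C.E n) (k + 2) (fun _ => y) ∈ A.Fil (C.E n) (p + 1) := by
    rw [← Finset.sum_sub_distrib]
    refine Submodule.sum_mem _ (fun k _ => ?_)
    exact A.Fil_anti (by omega) (A.TQ_sub (k + 2) p (fun _ => y + u) (fun _ => y)
      (fun _ _ => by rwa [add_sub_cancel_left]))
  rw [Finset.sum_range_succ', Finset.sum_range_succ', Finset.sum_range_succ',
    Finset.sum_range_succ']
  rw [h0, h1, map_add]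
  have e : ∀ a b c d e f g : A.V ⊗[K] C.E n, a + (b + c) + d + (e + f) - (g + b + d + e) -
      (c + f) = a - g := by intros; abel
  rw [e]
  exact h2

theorem curv_Dg (N : ℕ) {y : A.V ⊗[K] C.E n} (hy : y ∈ A.Dg (C.deg n) 0) :
    A.curv C n N y ∈ A.Dg (C.deg n) 1 := by
  refine Submodule.add_mem _ (Submodule.sum_mem _ (fun k _ => ?_)) ?_
  · exact A.TQ_Dg (C.one_mem n) (fun i j x hx y hy => C.mul_mem n i j x y hx hy) k (fun _ => y)
      (fun _ _ => hy)
  · exact A.lT_Dg 1 _ (fun j e he => C.d_mem n j e he) (by norm_num) hy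

theorem par_of_mem {i : ℤ} {v : A.V} (hv : v ∈ A.gr i) : A.par v = sgn K i • v := by
  rw [par, parity, assemble_of_mem _ _ i v hv]; rfl

/-- On total degree `0` the two involutions agree. -/
theorem eps_eq {y : A.V ⊗[K] C.E n} (hy : y ∈ A.Dg (C.deg n) 0) :
    LinearMap.lTensor A.V (C.eps n) y = A.eps (C.E n) y := by
  induction hy using Submodule.span_induction with
  | mem x hx =>
    obtain ⟨i, j, v, e, hv, he, hij, rfl⟩ := hx
    rw [LinearMap.lTensor_tmul, eps, LinearMap.rTensor_tmul, A.par_of_mem hv,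
      SDGA.eps_of_mem he, TensorProduct.tmul_smul, TensorProduct.smul_tmul']
    congr 2
    have hi : i = -(j : ℤ) := by omega
    subst hi
    unfold sgn
    by_cases h : Even j
    · rw [h.neg_one_pow, if_pos (by simpa using h)]
    · rw [Nat.not_even_iff_odd] at h
      rw [h.neg_one_pow, if_neg (by simpa using h)]
  | zero => rw [map_zero, map_zero]
  | add x y _ _ hx hy => rw [map_add, map_add, hx, hy]
  | smul c x _ hx => rw [map_smul, map_smul, hx]

/-- `Q_k ⊗ m_k` evaluated on `(εy)^r, z, y^{k-1-r}` -/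
noncomputable def Wt (k r : ℕ) (y z : A.V ⊗[K] C.E n) : A.V ⊗[K] C.E n :=
  A.TQ (C.E n) k (fun i => if (i : ℕ) < r then A.eps (C.E n) y else if (i : ℕ) = r then z else y)

theorem Wt_lin {k r : ℕ} (hr : r < k) (y : A.V ⊗[K] C.E n) :
    ∃ L : A.V ⊗[K] C.E n →ₗ[K] A.V ⊗[K] C.E n, ∀ z, A.Wt k r y z = L z := by
  obtain ⟨L, hL⟩ := Lin_sq (A.TQ (C.E n) k) hr
    (fun i => if i < r then A.eps (C.E n) y else y)
  refine ⟨L, fun z => ?_⟩
  rw [← hL]
  unfold Wt sq
  congr 1
  funext i
  by_cases hi : (i : ℕ) = r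
  · rw [hi, Function.update_self, if_neg (lt_irrefl _), if_pos rfl]
  · rw [Function.update_of_ne hi, if_neg hi]

theorem Wt_Fil {k r p : ℕ} (hr : r < k) (y : A.V ⊗[K] C.E n) {z : A.V ⊗[K] C.E n}
    (hz : z ∈ A.Fil (C.E n) p) : A.Wt k r y z ∈ A.Fil (C.E n) (p + k - 1) := by
  refine A.TQ_Fil_single k r p hr (fun i => if i < r then A.eps (C.E n) y
    else if i = r then z else y) ?_
  rw [if_neg (lt_irrefl _), if_pos rfl]; exact hz

theorem bianchi (p : ℕ) {y : A.V ⊗[K] C.E n} (hy : y ∈ A.Dg (C.deg n) 0)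
    (hc : A.curv C n (p + 1) y ∈ A.Fil (C.E n) p) :
    LinearMap.lTensor A.V (C.d n) (A.curv C n (p + 1) y) -
      A.TQ (C.E n) 1 (fun _ => A.curv C n (p + 1) y) ∈ A.Fil (C.E n) (p + 1) := by
  cases p with
  | zero => rw [zero_add, A.Fil_one]; trivial
  | succ p =>
  set c := A.curv C n (p + 1 + 1) y with hcdef
  set N := p + 1 + 1 with hN
  have hdd : LinearMap.lTensor A.V (C.d n) (LinearMap.lTensor A.V (C.d n) y) = 0 := by
    rw [← LinearMap.comp_apply, ← LinearMap.lTensor_comp]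
    have : C.d n ∘ₗ C.d n = 0 := by ext x; exact C.d_d n x
    rw [this, LinearMap.lTensor_zero]; rfl
  -- Leibniz
  have h1 : LinearMap.lTensor A.V (C.d n) c =
      ∑ k ∈ Finset.range N, ∑ r ∈ Finset.range k, A.Wt k r y (LinearMap.lTensor A.V (C.d n) y) := by
    rw [hcdef, curv, map_add, hdd, add_zero, map_sum]
    refine Finset.sum_congr rfl (fun k _ => ?_)
    rw [A.TQ_leibniz (C.d n) (C.eps n) (SDGA.d_one n) SDGA.eps_one SDGA.d_mul
      SDGA.eps_mul k (fun _ => y)]
    refine Finset.sum_congr rfl (fun r _ => ?_)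
    unfold Wt
    rw [A.eps_eq hy]
  have h2 : ∀ k ∈ Finset.range N, ∀ r ∈ Finset.range k,
      A.Wt k r y (LinearMap.lTensor A.V (C.d n) y) =
      A.Wt k r y c - ∑ s ∈ Finset.range N, A.Wt k r y (A.TQ (C.E n) s (fun _ => y)) := by
    intro k _ r hr
    obtain ⟨L, hL⟩ := A.Wt_lin (Finset.mem_range.1 hr) y
    simp only [hL]
    rw [← map_sum, ← map_sub]
    congr 1
    rw [hcdef, curv]; abel
  rw [Finset.sum_congr rfl (fun k hk => Finset.sum_congr rfl (h2 k hk))] at h1
  simp only [Finset.sum_sub_distrib] at h1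
  rw [h1]
  -- first part
  have h3 : ∑ k ∈ Finset.range N, ∑ r ∈ Finset.range k, A.Wt k r y c -
      A.TQ (C.E n) 1 (fun _ => c) ∈ A.Fil (C.E n) N := by
    have h4 := sum_range_sub (A.Fil (C.E n) N) (fun k => ∑ r ∈ Finset.range k, A.Wt k r y c) 2 N
      (by omega) (fun k hk _ => Submodule.sum_mem _ (fun r hr =>
        A.Fil_anti (by omega) (A.Wt_Fil (Finset.mem_range.1 hr) y hc)))
    have h40 : ∑ k ∈ Finset.range 2, ∑ r ∈ Finset.range k, A.Wt k r y c = A.Wt 1 0 y c := by
      simp [Finset.sum_range_succ]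
    rw [h40] at h4
    have e : A.Wt 1 0 y c = A.TQ (C.E n) 1 (fun _ => c) := by
      unfold Wt
      congr 1
      funext i
      have : i = 0 := Subsingleton.elim _ _
      subst this; simp
    rwa [e] at h4
  -- second part
  have h5 : ∑ k ∈ Finset.range N, ∑ r ∈ Finset.range k, ∑ s ∈ Finset.range N,
      A.Wt k r y (A.TQ (C.E n) s (fun _ => y)) ∈ A.Fil (C.E n) N := by
    set G : ℕ → ℕ → A.V ⊗[K] C.E n := fun k s => ∑ r ∈ Finset.range k,
      A.Wt k r y (A.TQ (C.E n) s (fun _ => y)) with hG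
    have hG0 : ∀ s, G 0 s = 0 := fun s => by simp [hG]
    have hGF : ∀ k s, (N ≤ k ∨ N + 1 ≤ k + s) → G k s ∈ A.Fil (C.E n) N := by
      intro k s hks
      refine Submodule.sum_mem _ (fun r hr => ?_)
      have hr' := Finset.mem_range.1 hr
      rcases hks with h | h
      · exact A.Fil_anti h (A.TQ_Fil_any k (fun i => if i < r then A.eps (C.E n) y else
          if i = r then A.TQ (C.E n) s (fun _ => y) else y))
      · exact A.Fil_anti (by omega) (A.Wt_Fil hr' y (A.TQ_Fil_any s (fun _ => y)))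
    have hrel : ∀ m, ∑ s ∈ Finset.range (m + 1), G (m - s + 1) s = 0 := by
      intro m
      have := A.relT m (fun _ => y)
      rw [← this]
      refine Finset.sum_congr rfl (fun s _ => Finset.sum_congr rfl (fun r _ => ?_))
      rfl
    have e1 : ∑ k ∈ Finset.range N, ∑ r ∈ Finset.range k, ∑ s ∈ Finset.range N,
        A.Wt k r y (A.TQ (C.E n) s (fun _ => y)) =
        ∑ s ∈ Finset.range N, ∑ k ∈ Finset.range N, G k s := by
      rw [Finset.sum_comm (s := Finset.range N) (t := Finset.range N)]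
      exact Finset.sum_congr rfl (fun k _ => Finset.sum_comm)
    have e2 : ∑ s ∈ Finset.range N, ∑ k ∈ Finset.range (N - s + 1), G k s = 0 := by
      have h6 := tri_sum G N
      rw [Finset.sum_eq_zero (fun m _ => hrel m)] at h6
      rw [← h6]
      refine Finset.sum_congr rfl (fun s _ => ?_)
      rw [Finset.sum_range_succ', hG0, add_zero]
    rw [e1, ← sub_zero (∑ s ∈ Finset.range N, ∑ k ∈ Finset.range N, G k s), ← e2,
      ← Finset.sum_sub_distrib]
    refine Submodule.sum_mem _ (fun s hs => ?_)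
    have hs' := Finset.mem_range.1 hs
    have h7 := sum_range_sub (A.Fil (C.E n) N) (fun k => G k s) N (N + 1) (by omega)
      (fun k hk _ => hGF k s (Or.inl hk))
    have h8 := sum_range_sub (A.Fil (C.E n) N) (fun k => G k s) (N - s + 1) (N + 1) (by omega)
      (fun k hk _ => hGF k s (Or.inr (by omega)))
    have := Submodule.sub_mem _ h8 h7
    rwa [sub_sub_sub_cancel_left] at this
  have e : ∀ a b c : A.V ⊗[K] C.E n, a - b - c = (a - c) - b := by intros; abel
  rw [e]
  exact Submodule.sub_mem _ h3 h5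

end CAInf

end Pool.Agent.Helper4.MCA
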