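import Pool.Agent.Helper4.MCA.Linf
import Pool.Agent.Helper4.MCB.NCoPi

/-!
For normalized cochains the tensor product is already complete.
-/

open scoped TensorProduct
open CategoryTheory Opposite

universe u

namespace Pool.Agent.Helper4.MCA

open MCB

section Delta

variable {K : Type u} [Field K] {n : SimplexCategory}

open Classical in
/-- elementary cochain -/
noncomputable def dlt (K : Type u) [Field K] (n : SimplexCategory) (l : List (Fin (n.len + 1))) :
    NCo K n :=
  ⟨fun m => if m = l ∧ m ≠ [] ∧ m.Pairwise (· < ·) then 1 else 0, by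
    refine ⟨by simp, fun m hm => ?_⟩
    exact if_neg (fun h => hm h.2.2)⟩

/-- all the candidates -/
def Tl (n : SimplexCategory) : Finset (List (Fin (n.len + 1))) :=
  (List.finRange (n.len + 1)).sublists.toFinset

theorem mem_Tl {m : List (Fin (n.len + 1))} (hm : m.Pairwise (· < ·)) : m ∈ Tl n := by
  rw [Tl, List.mem_toFinset, List.mem_sublists]
  have h1 : m.Nodup := hm.imp (fun h => ne_of_lt h)
  exact List.sublist_of_subperm_of_pairwise (List.subperm_of_subset h1 (fun a _ =>
    List.mem_finRange a)) hm (List.sortedLT_finRange (n.len + 1)).pairwise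

theorem dlt_mem (l : List (Fin (n.len + 1))) : dlt K n l ∈ NCo.deg n (l.length - 1) := by
  intro m hm
  refine if_neg ?_
  rintro ⟨rfl, h0, _⟩
  have := List.length_pos_iff.2 h0
  omega

theorem expand (f : NCo K n) : f = ∑ l ∈ Tl n, f.1 l • dlt K n l := by
  apply NCo.ext_inc
  intro m h0 hm
  rw [NCo.sum_val, Finset.sum_eq_single m]
  · change f.1 m = f.1 m * (if m = m ∧ m ≠ [] ∧ m.Pairwise (· < ·) then 1 else 0)
    rw [if_pos ⟨rfl, h0, hm⟩, mul_one]
  · intro l _ hl
    change f.1 l * (if m = l ∧ m ≠ [] ∧ m.Pairwise (· < ·) then 1 else 0) = 0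
    rw [if_neg (fun h => hl h.1.symm), mul_zero]
  · intro h; exact absurd (mem_Tl hm) h

/-- evaluation -/
def evl (l : List (Fin (n.len + 1))) : NCo K n →ₗ[K] K where
  toFun f := f.1 l
  map_add' _ _ := rfl
  map_smul' _ _ := rfl

end Delta

namespace CAInf

variable {K : Type u} [Field K] (A : CAInf K) {n : SimplexCategory}

/-- evaluation of a cochain with coefficients in `V` -/
noncomputable def eta (l : List (Fin (n.len + 1))) : A.V ⊗[K] NCo K n →ₗ[K] A.V :=
  (TensorProduct.rid K A.V).toLinearMap ∘ₗ LinearMap.lTensor A.V (evl l)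

theorem eta_tmul (l : List (Fin (n.len + 1))) (v : A.V) (f : NCo K n) :
    A.eta l (v ⊗ₜ[K] f) = f.1 l • v := by
  simp [eta, evl]

theorem expand_t (x : A.V ⊗[K] NCo K n) : x = ∑ l ∈ Tl n, A.eta l x ⊗ₜ[K] dlt K n l := by
  induction x using TensorProduct.induction_on with
  | zero => simp
  | tmul v f =>
    conv_lhs => rw [expand f]
    rw [TensorProduct.tmul_sum]
    refine Finset.sum_congr rfl (fun l _ => ?_)
    rw [eta_tmul, TensorProduct.tmul_smul, TensorProduct.smul_tmul']
  | add x y hx hy =>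
    conv_lhs => rw [hx, hy]
    rw [← Finset.sum_add_distrib]
    refine Finset.sum_congr rfl (fun l _ => ?_)
    rw [map_add, TensorProduct.add_tmul]

theorem eta_Fil {p : ℕ} (l : List (Fin (n.len + 1))) {x : A.V ⊗[K] NCo K n}
    (hx : x ∈ A.Fil (NCo K n) p) : A.eta l x ∈ A.F p := by
  rw [Fil_eq_span] at hx
  induction hx using Submodule.span_induction with
  | mem x hx =>
    obtain ⟨v, hv, e, rfl⟩ := hx
    rw [eta_tmul]; exact Submodule.smul_mem _ _ hv
  | zero => rw [map_zero]; exact Submodule.zero_mem _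
  | add x y _ _ hx hy => rw [map_add]; exact Submodule.add_mem _ hx hy
  | smul c x _ hx => rw [map_smul]; exact Submodule.smul_mem _ c hx

theorem eta_Dg (l : List (Fin (n.len + 1))) {x : A.V ⊗[K] NCo K n}
    (hx : x ∈ A.Dg (NCo.deg n) 0) : A.eta l x ∈ A.gr (-((l.length - 1 : ℕ) : ℤ)) := by
  induction hx using Submodule.span_induction with
  | mem x hx =>
    obtain ⟨i, j, v, e, hv, he, hij, rfl⟩ := hx
    rw [eta_tmul]
    by_cases hl : l.length = j + 1
    · have : i = -((l.length - 1 : ℕ) : ℤ) := by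
        rw [hl]; simp; omega
      rw [← this]
      exact Submodule.smul_mem _ _ hv
    · rw [he l hl, zero_smul]; exact Submodule.zero_mem _
  | zero => rw [map_zero]; exact Submodule.zero_mem _
  | add x y _ _ hx hy => rw [map_add]; exact Submodule.add_mem _ hx hy
  | smul c x _ hx => rw [map_smul]; exact Submodule.smul_mem _ c hx

theorem sep_t {x : A.V ⊗[K] NCo K n} (hx : ∀ p, x ∈ A.Fil (NCo K n) p) : x = 0 := by
  rw [A.expand_t x]
  refine Finset.sum_eq_zero (fun l _ => ?_)
  rw [A.F_sep _ (fun p => A.eta_Fil l (hx p)), TensorProduct.zero_tmul]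

theorem complete_t (y : ℕ → A.V ⊗[K] NCo K n) (hy : ∀ p, y p ∈ A.Dg (NCo.deg n) 0)
    (hyy : ∀ p, y (p + 1) - y p ∈ A.Fil (NCo K n) p) :
    ∃ z ∈ A.Dg (NCo.deg n) 0, ∀ p, z - y p ∈ A.Fil (NCo K n) p := by
  have h : ∀ l : List (Fin (n.len + 1)), ∃ v ∈ A.gr (-((l.length - 1 : ℕ) : ℤ)), ∀ p,
      v - A.eta l (y p) ∈ A.F p := by
    intro l
    refine A.F_complete _ (fun p => A.eta l (y p)) (fun p => A.eta_Dg l (hy p)) (fun p => ?_)
    rw [← map_sub]
    exact A.eta_Fil l (hyy p)
  choose v hv1 hv2 using h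
  refine ⟨∑ l ∈ Tl n, v l ⊗ₜ[K] dlt K n l, Submodule.sum_mem _ (fun l _ => ?_), fun p => ?_⟩
  · exact A.tmul_Dg (hv1 l) (dlt_mem l) (by simp)
  · rw [A.expand_t (y p), ← Finset.sum_sub_distrib]
    refine Submodule.sum_mem _ (fun l _ => ?_)
    rw [← TensorProduct.sub_tmul]
    exact A.tmul_mem_Fil (hv2 l p) _

variable [CharZero K]

/-- The Maurer–Cartan simplicial set `MC_•(A)`: its `n`-simplices are the elements `x` of total
degree `0` of `A ⊗ N^•(Δ^n)` with `∑_k NQ_k (x, …, x) = 0`; the convergence of the sum is with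
respect to the filtration of `A ⊗ N^•(Δ^n)`. -/
noncomputable def MCN : SSet.{u} where
  obj n := {x : A.V ⊗[K] (ncoDGA K).E n.unop //
    x ∈ A.Dg ((ncoDGA K).deg n.unop) 0 ∧
      ∀ p, A.curvK (ncoDGA K) n.unop p x ∈ A.Fil ((ncoDGA K).E n.unop) p}
  map {n m} θ := ↾fun x => ⟨A.pl (ncoDGA K) θ.unop x.1, A.pl_Dg _ x.2.1,
    fun p => A.curvK_pl _ x.2.1 (x.2.2 p)⟩
  map_id n := by
    ext x
    exact A.pl_id _ x.1
  map_comp {n m l} a b := by
    ext x
    exact A.pl_comp b.unop a.unop x.1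

/-- The comparison with the completed tensor product. -/
noncomputable def MCNK : A.MCN ⟶ A.MCK (ncoDGA K) where
  app n := ↾fun x => ⟨CT.ofSeq A (fun _ => x.1) (fun p => by
      rw [sub_self]; exact Submodule.zero_mem _), fun p => ⟨x.1, x.2.1, rfl, x.2.2 p⟩⟩
  naturality n m θ := by
    ext x
    apply Subtype.ext
    apply CT.ext
    intro p
    rfl

theorem complete_nco (n : SimplexCategory) (y : ℕ → A.V ⊗[K] (ncoDGA K).E n)
    (hy : ∀ p, y p ∈ A.Dg ((ncoDGA K).deg n) 0)
    (hyy : ∀ p, y (p + 1) - y p ∈ A.Fil ((ncoDGA K).E n) p) :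
    ∃ z : A.V ⊗[K] (ncoDGA K).E n, z ∈ A.Dg ((ncoDGA K).deg n) 0 ∧
      ∀ p, z - y p ∈ A.Fil ((ncoDGA K).E n) p := A.complete_t y hy hyy

theorem MCNK_bij (n : SimplexCategoryᵒᵖ) : Function.Bijective (A.MCNK.app n) := by
  constructor
  · intro x x' h
    apply Subtype.ext
    rw [← sub_eq_zero]
    apply A.sep_t (n := n.unop)
    intro p
    exact A.mk_eq.1 (congrArg (fun w => w.1.1 p) h)
  · intro x
    have hx := x.2
    choose y hy1 hy2 hy3 using hx
    obtain ⟨z, hz1, hz2⟩ := A.complete_nco n.unop y hy1 (fun p =>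
      A.mk_eq.1 ((CT.down A x.1 (hy2 (p + 1))).trans (hy2 p).symm))
    refine ⟨⟨z, hz1, fun p => ?_⟩, ?_⟩
    · rw [A.curvK_Fil hz1]
      refine A.curv_congr' p p (y' := LinearMap.lTensor A.V ((ncoDGA K).psi n.unop) (y p)) ?_
        ((A.curvK_Fil (hy1 p)).1 (hy3 p))
      rw [← map_sub]
      exact A.lT_Fil _ (hz2 p)
    · apply Subtype.ext
      apply CT.ext
      intro p
      exact (A.mk_eq.2 (hz2 p)).trans (hy2 p)

instance : IsIso A.MCNK := by
  apply (config := { allowSynthFailures := true }) NatIso.isIso_of_isIso_app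
  intro n
  rw [isIso_iff_bijective]
  exact A.MCNK_bij n

end CAInf

end Pool.Agent.Helper4.MCA
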