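import Pool.Agent.Helper4.MCA.Ops

/-!
Filtration and degrees on `V ⊗ E`.
-/

open scoped TensorProduct

universe u

namespace Pool.Agent.Helper4.MCA

open MCB

namespace CAInf

variable {K : Type u} [Field K] (A : CAInf K)

section Fil

variable (E : Type u) [Ring E] [Algebra K E]

/-- The filtration of `V ⊗ E`: the image of `F^p ⊗ E`. -/
noncomputable def Fil (p : ℕ) : Submodule K (A.V ⊗[K] E) :=
  LinearMap.range (LinearMap.rTensor E (A.F p).subtype)

variable {E}

theorem tmul_mem_Fil {p : ℕ} {v : A.V} (hv : v ∈ A.F p) (e : E) : v ⊗ₜ[K] e ∈ A.Fil E p :=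
  ⟨(⟨v, hv⟩ : A.F p) ⊗ₜ[K] e, rfl⟩

theorem Fil_eq_span (p : ℕ) :
    A.Fil E p = Submodule.span K {x | ∃ v ∈ A.F p, ∃ e : E, x = v ⊗ₜ[K] e} := by
  apply le_antisymm
  · rintro _ ⟨y, rfl⟩
    induction y using TensorProduct.induction_on with
    | zero => rw [map_zero]; exact Submodule.zero_mem _
    | tmul v e => exact Submodule.subset_span ⟨v.1, v.2, e, rfl⟩
    | add x y hx hy => rw [map_add]; exact Submodule.add_mem _ hx hy
  · rw [Submodule.span_le]
    rintro _ ⟨v, hv, e, rfl⟩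
    exact A.tmul_mem_Fil hv e

theorem Fil_anti {p q : ℕ} (h : p ≤ q) : A.Fil E q ≤ A.Fil E p := by
  rw [Fil_eq_span, Submodule.span_le]
  rintro _ ⟨v, hv, e, rfl⟩
  exact A.tmul_mem_Fil (A.F_anti h hv) e

theorem Fil_one : A.Fil E 1 = ⊤ := by
  rw [eq_top_iff, ← A.span_pure, Submodule.span_le]
  rintro _ ⟨v, e, rfl⟩
  exact A.tmul_mem_Fil (by rw [A.F_one]; trivial) e

theorem Fil_zero : A.Fil E 0 = ⊤ := by
  rw [eq_top_iff, ← A.Fil_one]; exact A.Fil_anti (Nat.zero_le _)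

theorem lT_Fil {E' : Type u} [Ring E'] [Algebra K E'] (g : E →ₗ[K] E') {p : ℕ}
    {x : A.V ⊗[K] E} (hx : x ∈ A.Fil E p) : LinearMap.lTensor A.V g x ∈ A.Fil E' p := by
  rw [Fil_eq_span] at hx
  induction hx using Submodule.span_induction with
  | mem x hx =>
    obtain ⟨v, hv, e, rfl⟩ := hx
    exact A.tmul_mem_Fil hv _
  | zero => rw [map_zero]; exact Submodule.zero_mem _
  | add x y _ _ hx hy => rw [map_add]; exact Submodule.add_mem _ hx hy
  | smul c x _ hx => rw [map_smul]; exact Submodule.smul_mem _ c hx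

theorem rT_Fil (f : A.V →ₗ[K] A.V) {p q : ℕ} (hf : ∀ v ∈ A.F p, f v ∈ A.F q)
    {x : A.V ⊗[K] E} (hx : x ∈ A.Fil E p) : LinearMap.rTensor E f x ∈ A.Fil E q := by
  rw [Fil_eq_span] at hx
  induction hx using Submodule.span_induction with
  | mem x hx =>
    obtain ⟨v, hv, e, rfl⟩ := hx
    exact A.tmul_mem_Fil (hf v hv) _
  | zero => rw [map_zero]; exact Submodule.zero_mem _
  | add x y _ _ hx hy => rw [map_add]; exact Submodule.add_mem _ hx hy
  | smul c x _ hx => rw [map_smul]; exact Submodule.smul_mem _ c hx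

theorem rT_zero (f : A.V →ₗ[K] A.V) {p : ℕ} (hf : ∀ v ∈ A.F p, f v = 0)
    {x : A.V ⊗[K] E} (hx : x ∈ A.Fil E p) : LinearMap.rTensor E f x = 0 := by
  rw [Fil_eq_span] at hx
  induction hx using Submodule.span_induction with
  | mem x hx =>
    obtain ⟨v, hv, e, rfl⟩ := hx
    rw [LinearMap.rTensor_tmul, hf v hv, TensorProduct.zero_tmul]
  | zero => rw [map_zero]
  | add x y _ _ hx hy => rw [map_add, hx, hy, add_zero]
  | smul c x _ hx => rw [map_smul, hx, smul_zero]

theorem TQ_Fil (k : ℕ) (a : ℕ → ℕ) (x : ℕ → A.V ⊗[K] E) (hx : ∀ i < k, x i ∈ A.Fil E (a i)) :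
    A.TQ E k (fun i => x i) ∈ A.Fil E (∑ i ∈ Finset.range k, a i) := by
  refine reduce (sq (A.TQ E k)) k (fun i => {x | ∃ v ∈ A.F (a i), ∃ e : E, x = v ⊗ₜ[K] e})
    (A.Fil E (∑ i ∈ Finset.range k, a i)) (fun m hm x => Lin_sq _ hm x) ?_ x
    (fun i hi => by rw [← Fil_eq_span]; exact hx i hi)
  intro x hx
  have : ∀ i, ∃ (v : A.V) (e : E), i < k → v ∈ A.F (a i) ∧ x i = v ⊗ₜ[K] e := by
    intro i
    by_cases h : i < k
    · obtain ⟨v, hv, e, h'⟩ := hx i h
      exact ⟨v, e, fun _ => ⟨hv, h'⟩⟩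
    · exact ⟨0, 0, fun h' => absurd h' h⟩
  choose v e h using this
  have h1 : (fun i : Fin k => x i) = fun i : Fin k => v i ⊗ₜ[K] e i :=
    funext fun i => (h i i.isLt).2
  rw [sq, h1, A.TQ_tmul]
  apply A.tmul_mem_Fil
  have := A.Q_filt k (fun i => a i) (fun i => v i) (fun i => (h i i.isLt).1)
  rwa [Fin.sum_univ_eq_sum_range] at this

theorem TQ_Fil_any (k : ℕ) (x : ℕ → A.V ⊗[K] E) : A.TQ E k (fun i => x i) ∈ A.Fil E k := by
  have := A.TQ_Fil k (fun _ => 1) x (fun i _ => by rw [A.Fil_one]; trivial)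
  simpa using this

theorem TQ_Fil_single (k r p : ℕ) (hr : r < k) (x : ℕ → A.V ⊗[K] E) (hx : x r ∈ A.Fil E p) :
    A.TQ E k (fun i => x i) ∈ A.Fil E (p + k - 1) := by
  have := A.TQ_Fil k (fun i => if i = r then p else 1) x (fun i _ => by
    by_cases h : i = r
    · subst h; simpa using hx
    · simp only [if_neg h]
      rw [A.Fil_one]; trivial)
  have hsum : ∑ i ∈ Finset.range k, (if i = r then p else 1) = p + k - 1 := by
    rw [← Finset.add_sum_erase _ _ (Finset.mem_range.2 hr), if_pos rfl]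
    rw [Finset.sum_congr rfl (fun i hi => if_neg (Finset.ne_of_mem_erase hi))]
    rw [Finset.sum_const, Finset.card_erase_of_mem (Finset.mem_range.2 hr), Finset.card_range]
    simp
    omega
  rwa [hsum] at this

/-- Congruence. -/
theorem TQ_sub (k p : ℕ) (x y : ℕ → A.V ⊗[K] E) (h : ∀ i < k, x i - y i ∈ A.Fil E p) :
    A.TQ E k (fun i => x i) - A.TQ E k (fun i => y i) ∈ A.Fil E (p + k - 1) := by
  have key : ∀ j ≤ k, A.TQ E k (fun i => if (i : ℕ) < j then x i else y i) -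
      A.TQ E k (fun i => y i) ∈ A.Fil E (p + k - 1) := by
    intro j
    induction j with
    | zero =>
      intro _
      simp
    | succ j ih =>
      intro hj
      have h1 := ih (by omega)
      obtain ⟨L, hL⟩ := Lin_sq (A.TQ E k) (m := j) (by omega) (fun i => if i < j then x i else y i)
      have e1 : A.TQ E k (fun i => if (i : ℕ) < j + 1 then x i else y i) = L (x j) := by
        rw [← hL]
        unfold sq
        congr 1
        funext i
        by_cases hi : (i : ℕ) = j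
        · rw [hi, Function.update_self, if_pos (by omega)]
        · rw [Function.update_of_ne hi]
          by_cases h2 : (i : ℕ) < j
          · rw [if_pos h2, if_pos (by omega)]
          · rw [if_neg h2, if_neg (by omega)]
      have e2 : A.TQ E k (fun i => if (i : ℕ) < j then x i else y i) = L (y j) := by
        rw [← hL]
        unfold sq
        congr 1
        funext i
        by_cases hi : (i : ℕ) = j
        · rw [hi, Function.update_self, if_neg (by omega)]
        · rw [Function.update_of_ne hi]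
      have e3 : L (x j) - L (y j) ∈ A.Fil E (p + k - 1) := by
        rw [← map_sub, ← hL]
        refine A.TQ_Fil_single k j p (by omega) _ ?_
        rw [Function.update_self]
        exact h j (by omega)
      rw [e1]
      rw [e2] at h1
      have := Submodule.add_mem _ e3 h1
      rwa [sub_add_sub_cancel] at this
  have := key k le_rfl
  have e : (fun i : Fin k => if (i : ℕ) < k then x i else y i) = fun i : Fin k => x i := by
    funext i; rw [if_pos i.isLt]
  rwa [e] at this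

end Fil

section Kappa

/-- graded retraction onto `F p` -/
theorem exists_rho (p : ℕ) : ∃ ρ : A.V →ₗ[K] A.V, (∀ i, ∀ x ∈ A.gr i, ρ x ∈ A.gr i) ∧
    (∀ x, ρ x ∈ A.F p) ∧ ∀ x ∈ A.F p, ρ x = x := by
  have h : ∀ i, ∃ g : A.gr i →ₗ[K] ↥((A.F p).comap (A.gr i).subtype), ∀ x, g x.1 = x := by
    intro i
    obtain ⟨g, hg⟩ := LinearMap.exists_extend
      (LinearMap.id : ↥((A.F p).comap (A.gr i).subtype) →ₗ[K] _)
    exact ⟨g, fun x => LinearMap.congr_fun hg x⟩
  choose g hg using h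
  let ρ : A.V →ₗ[K] A.V := assemble A.internal
    (fun i => (A.gr i).subtype ∘ₗ ((A.F p).comap (A.gr i).subtype).subtype ∘ₗ g i)
  have hρ : ∀ i x (hx : x ∈ A.gr i), ρ x = ((g i ⟨x, hx⟩).1.1) := by
    intro i x hx
    exact assemble_of_mem A.internal _ i x hx
  have h1 : ∀ i, ∀ x ∈ A.gr i, ρ x ∈ A.gr i := by
    intro i x hx
    rw [hρ i x hx]; exact (g i ⟨x, hx⟩).1.2
  have h2 : ∀ x, ρ x ∈ A.F p := by
    intro x
    have hx : x ∈ ⨆ i, A.gr i := by rw [A.internal.submodule_iSup_eq_top]; trivial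
    induction hx using Submodule.iSup_induction' with
    | mem i x hx => rw [hρ i x hx]; exact (g i ⟨x, hx⟩).2
    | zero => rw [map_zero]; exact Submodule.zero_mem _
    | add x y _ _ hx hy => rw [map_add]; exact Submodule.add_mem _ hx hy
  refine ⟨ρ, h1, h2, fun x hx => ?_⟩
  rw [← sub_eq_zero]
  apply eq_zero_of_prj A.internal
  intro i
  have hc : ρ (prj A.internal i x) = prj A.internal i (ρ x) :=
    map_prj A.internal A.internal id Function.injective_id ρ h1 i x
  rw [map_sub, ← hc]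
  have hm := prj_mem A.internal i x
  rw [hρ i _ hm]
  have := hg i ⟨⟨_, hm⟩, A.F_prj p x hx i⟩
  rw [this]
  exact sub_self _

/-- graded projection onto a complement of `F (p+1)` in `F p` -/
theorem exists_kappa (p : ℕ) : ∃ κ : A.V →ₗ[K] A.V, (∀ i, ∀ x ∈ A.gr i, κ x ∈ A.gr i) ∧
    (∀ x, κ x ∈ A.F p) ∧ (∀ x ∈ A.F (p + 1), κ x = 0) ∧ ∀ x ∈ A.F p, κ x - x ∈ A.F (p + 1) := by
  obtain ⟨ρ, h1, h2, h3⟩ := A.exists_rho p
  obtain ⟨ρ', h1', h2', h3'⟩ := A.exists_rho (p + 1)
  refine ⟨ρ - ρ' ∘ₗ ρ, fun i x hx => ?_, fun x => ?_, fun x hx => ?_, fun x hx => ?_⟩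
  · exact Submodule.sub_mem _ (h1 i x hx) (h1' i _ (h1 i x hx))
  · exact Submodule.sub_mem _ (h2 x) (A.F_anti (Nat.le_succ p) (h2' _))
  · change ρ x - ρ' (ρ x) = 0
    rw [h3 x (A.F_anti (Nat.le_succ p) hx), h3' x hx, sub_self]
  · change ρ x - ρ' (ρ x) - x ∈ _
    rw [h3 x hx, sub_sub_cancel_left]
    exact Submodule.neg_mem _ (h2' _)

end Kappa

section Flat

variable {E : Type u} [Ring E] [Algebra K E]

/-- Contraction with a functional. -/
noncomputable def lam (ξ : A.V →ₗ[K] K) : A.V ⊗[K] E →ₗ[K] E :=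
  (TensorProduct.lid K E).toLinearMap ∘ₗ LinearMap.rTensor E ξ

theorem lam_tmul (ξ : A.V →ₗ[K] K) (v : A.V) (e : E) : A.lam ξ (v ⊗ₜ[K] e) = ξ v • e := by
  simp [lam]

theorem lam_lT {E' : Type u} [Ring E'] [Algebra K E'] (ξ : A.V →ₗ[K] K) (g : E →ₗ[K] E')
    (x : A.V ⊗[K] E) : A.lam ξ (LinearMap.lTensor A.V g x) = g (A.lam ξ x) := by
  induction x using TensorProduct.induction_on with
  | zero => simp
  | tmul v e => rw [LinearMap.lTensor_tmul, lam_tmul, lam_tmul, map_smul]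
  | add x y hx hy => simp only [map_add, hx, hy]

theorem eq_zero_of_lam {x : A.V ⊗[K] E} (h : ∀ ξ : A.V →ₗ[K] K, A.lam ξ x = 0) : x = 0 := by
  classical
  let b := Module.Basis.ofVectorSpace K A.V
  apply (TensorProduct.equivFinsuppOfBasisLeft (N := E) b).injective
  rw [map_zero]
  ext i
  have : ∀ x : A.V ⊗[K] E, (TensorProduct.equivFinsuppOfBasisLeft (N := E) b) x i =
      A.lam (b.coord i) x := by
    intro x
    induction x using TensorProduct.induction_on with
    | zero => simp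
    | tmul v e =>
      rw [lam_tmul, TensorProduct.equivFinsuppOfBasisLeft_apply_tmul_apply]; rfl
    | add x y hx hy => rw [map_add, map_add, Finsupp.add_apply, hx, hy]
  rw [this, h]; rfl

theorem lT_id_of_mem {x : A.V ⊗[K] E} (S : Submodule K E)
    (hS : ∀ ξ : A.V →ₗ[K] K, A.lam ξ x ∈ S) (g : E →ₗ[K] E) (hg : ∀ e ∈ S, g e = e) :
    LinearMap.lTensor A.V g x = x := by
  rw [← sub_eq_zero]
  apply A.eq_zero_of_lam
  intro ξ
  rw [map_sub, lam_lT, hg _ (hS ξ), sub_self]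

end Flat

section Deg

variable {E : Type u} [Ring E] [Algebra K E] (dE : ℕ → Submodule K E)

/-- elements of total degree `m` -/
noncomputable def Dg (m : ℤ) : Submodule K (A.V ⊗[K] E) :=
  Submodule.span K {x | ∃ (i : ℤ) (j : ℕ) (v : A.V) (e : E), v ∈ A.gr i ∧ e ∈ dE j ∧
    i + j = m ∧ x = v ⊗ₜ[K] e}

variable {dE}

theorem tmul_Dg {i : ℤ} {j : ℕ} {v : A.V} {e : E} (hv : v ∈ A.gr i) (he : e ∈ dE j) {m : ℤ}
    (hm : i + j = m) : v ⊗ₜ[K] e ∈ A.Dg dE m :=
  Submodule.subset_span ⟨i, j, v, e, hv, he, hm, rfl⟩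

theorem lT_Dg {E' : Type u} [Ring E'] [Algebra K E'] {dE' : ℕ → Submodule K E'} (c : ℕ)
    (g : E →ₗ[K] E') (hg : ∀ j, ∀ e ∈ dE j, g e ∈ dE' (j + c)) {m m' : ℤ} (hm : m + c = m')
    {x : A.V ⊗[K] E} (hx : x ∈ A.Dg dE m) : LinearMap.lTensor A.V g x ∈ A.Dg dE' m' := by
  induction hx using Submodule.span_induction with
  | mem x hx =>
    obtain ⟨i, j, v, e, hv, he, hij, rfl⟩ := hx
    rw [LinearMap.lTensor_tmul]
    exact A.tmul_Dg hv (hg j e he) (by push_cast; omega)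
  | zero => rw [map_zero]; exact Submodule.zero_mem _
  | add x y _ _ hx hy => rw [map_add]; exact Submodule.add_mem _ hx hy
  | smul c x _ hx => rw [map_smul]; exact Submodule.smul_mem _ c hx

theorem lT_Dg_lower (h : E →ₗ[K] E) (h0 : ∀ e ∈ dE 0, h e = 0)
    (h1 : ∀ j, ∀ e ∈ dE (j + 1), h e ∈ dE j) {m m' : ℤ} (hm : m = m' + 1)
    {x : A.V ⊗[K] E} (hx : x ∈ A.Dg dE m) : LinearMap.lTensor A.V h x ∈ A.Dg dE m' := by
  induction hx using Submodule.span_induction with
  | mem x hx =>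
    obtain ⟨i, j, v, e, hv, he, hij, rfl⟩ := hx
    rw [LinearMap.lTensor_tmul]
    cases j with
    | zero => rw [h0 e he, TensorProduct.tmul_zero]; exact Submodule.zero_mem _
    | succ j => exact A.tmul_Dg hv (h1 j e he) (by push_cast at hij; omega)
  | zero => rw [map_zero]; exact Submodule.zero_mem _
  | add x y _ _ hx hy => rw [map_add]; exact Submodule.add_mem _ hx hy
  | smul c x _ hx => rw [map_smul]; exact Submodule.smul_mem _ c hx

theorem rT_Dg (f : A.V →ₗ[K] A.V) (hf : ∀ i, ∀ x ∈ A.gr i, f x ∈ A.gr i) {m : ℤ}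
    {x : A.V ⊗[K] E} (hx : x ∈ A.Dg dE m) : LinearMap.rTensor E f x ∈ A.Dg dE m := by
  induction hx using Submodule.span_induction with
  | mem x hx =>
    obtain ⟨i, j, v, e, hv, he, hij, rfl⟩ := hx
    exact A.tmul_Dg (hf i v hv) he hij
  | zero => rw [map_zero]; exact Submodule.zero_mem _
  | add x y _ _ hx hy => rw [map_add]; exact Submodule.add_mem _ hx hy
  | smul c x _ hx => rw [map_smul]; exact Submodule.smul_mem _ c hx

theorem TQ_Dg (h1 : (1 : E) ∈ dE 0)
    (hmul : ∀ i j, ∀ x ∈ dE i, ∀ y ∈ dE j, x * y ∈ dE (i + j)) (k : ℕ) (x : ℕ → A.V ⊗[K] E)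
    (hx : ∀ i < k, x i ∈ A.Dg dE 0) : A.TQ E k (fun i => x i) ∈ A.Dg dE 1 := by
  refine reduce (sq (A.TQ E k)) k (fun _ => {x | ∃ (i : ℤ) (j : ℕ) (v : A.V) (e : E),
    v ∈ A.gr i ∧ e ∈ dE j ∧ i + j = 0 ∧ x = v ⊗ₜ[K] e})
    (A.Dg dE 1) (fun m hm x => Lin_sq _ hm x) ?_ x hx
  intro x hx
  have : ∀ l, ∃ (i : ℤ) (j : ℕ) (v : A.V) (e : E), l < k →
      v ∈ A.gr i ∧ e ∈ dE j ∧ i + j = 0 ∧ x l = v ⊗ₜ[K] e := by
    intro l
    by_cases h : l < k
    · obtain ⟨i, j, v, e, h'⟩ := hx l h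
      exact ⟨i, j, v, e, fun _ => h'⟩
    · exact ⟨0, 0, 0, 0, fun h' => absurd h' h⟩
  choose i j v e h using this
  have h1' : (fun l : Fin k => x l) = fun l : Fin k => v l ⊗ₜ[K] e l :=
    funext fun l => (h l l.isLt).2.2.2
  rw [sq, h1', A.TQ_tmul]
  have hPr : ∀ k', k' ≤ k → Pr k' e ∈ dE (∑ l ∈ Finset.range k', j l) := by
    intro k'
    induction k' with
    | zero => intro _; simpa [Pr] using h1
    | succ k' ih =>
      intro hk
      rw [Pr, Finset.sum_range_succ]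
      exact hmul _ _ _ (ih (by omega)) _ (h k' (by omega)).2.1
  refine A.tmul_Dg (A.Q_deg k (fun l => i l) (fun l => v l) (fun l => (h l l.isLt).1))
    (hPr k le_rfl) ?_
  rw [Fin.sum_univ_eq_sum_range (fun l => i l) k]
  push_cast
  have : ∑ l ∈ Finset.range k, (i l + (j l : ℤ)) = 0 :=
    Finset.sum_eq_zero (fun l hl => (h l (Finset.mem_range.1 hl)).2.2.1)
  rw [Finset.sum_add_distrib] at this
  linarith

end Deg

end CAInf

end Pool.Agent.Helper4.MCA
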