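import Pool.Agent.Helper4.MCA.MCSet

/-!
Koszul signs: the signed extension of operations to `V ⊗ E`, and sign removal.
-/

open scoped TensorProduct
open CategoryTheory Opposite

universe u

namespace Pool.Agent.Helper4.MCA

open MCB

/-- The projection of a graded vector space to its even part (`c = false`) or its odd part
(`c = true`). -/
noncomputable def parProj {K : Type u} [Field K] {W : Type u} [AddCommGroup W] [Module K W]
    {ι : Type} [DecidableEq ι] {gr : ι → Submodule K W} (h : DirectSum.IsInternal gr)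
    (odd : ι → Bool) (c : Bool) : W →ₗ[K] W :=
  assemble h (fun i => if odd i = c then (gr i).subtype else 0)

theorem parProj_of_mem {K : Type u} [Field K] {W : Type u} [AddCommGroup W] [Module K W]
    {ι : Type} [DecidableEq ι] {gr : ι → Submodule K W} (h : DirectSum.IsInternal gr)
    (odd : ι → Bool) (c : Bool) {i : ι} {x : W} (hx : x ∈ gr i) :
    parProj h odd c x = if odd i = c then x else 0 := by
  rw [parProj, assemble_of_mem h _ i x hx]
  split_ifs <;> rfl

/-- The Koszul sign `∏_{i < l} (-1)^{b_i c_l}`, where `b`, `c` are parities (`true` is odd). -/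
def kSign (K : Type u) [Field K] {k : ℕ} (b c : Fin k → Bool) : K :=
  ∏ i : Fin k, ∏ l : Fin k, if i < l ∧ b i = true ∧ c l = true then -1 else 1

namespace CAInf

variable {K : Type u} [Field K] (A : CAInf K)

/-- the even or odd part of an element of `A` -/
noncomputable def pV (c : Bool) : A.V →ₗ[K] A.V :=
  parProj A.internal (fun i : ℤ => decide (Odd i)) c

end CAInf

/-- the even or odd part of a cochain or form -/
noncomputable def _root_.Pool.Agent.Helper4.MCB.SDGA.pE {K : Type u} [Field K] (C : SDGA K)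
    (n : SimplexCategory) (b : Bool) : C.E n →ₗ[K] C.E n :=
  parProj (C.internal n) (fun i : ℕ => decide (Odd i)) b

namespace CAInf

variable {K : Type u} [Field K] (A : CAInf K) (C : SDGA K) (n : SimplexCategory)

/-- The extension of a multilinear operation `f` of `A` to `A ⊗ E`, with the Koszul sign:
`(a_1 ⊗ φ_1, …, a_k ⊗ φ_k) ↦ (-1)^{∑_{i<l} |φ_i| |a_l|} f (a_1, …, a_k) ⊗ φ_1 ⋯ φ_k`. -/
noncomputable def koszulExt {k : ℕ} (f : MultilinearMap K (fun _ : Fin k => A.V) A.V) :
    MultilinearMap K (fun _ : Fin k => A.V ⊗[K] C.E n) (A.V ⊗[K] C.E n) :=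
  ∑ b : Fin k → Bool, ∑ c : Fin k → Bool, kSign K b c •
    (T k f (MultilinearMap.mkPiAlgebraFin K k (C.E n))).compLinearMap
      (fun i => TensorProduct.map (A.pV (c i)) (C.pE n (b i)))

/-- The curvature `∑_k NQ_k (y, …, y)` with `NQ_k` the Koszul extension of `Q_k` (plus `id ⊗ d`
for `k = 1`), up to terms in the `N`-th step of the filtration. -/
noncomputable def curvK (N : ℕ) (y : A.V ⊗[K] C.E n) : A.V ⊗[K] C.E n :=
  ∑ k ∈ Finset.range N, A.koszulExt C n (A.Q k) (fun _ => y) + TensorProduct.map A.par (C.d n) y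

variable {C n}

theorem pV_of_mem {i : ℤ} {v : A.V} (hv : v ∈ A.gr i) (c : Bool) :
    A.pV c v = if decide (Odd i) = c then v else 0 := parProj_of_mem _ _ _ hv

theorem _root_.Pool.Agent.Helper4.MCB.SDGA.pE_of_mem {i : ℕ} {e : C.E n} (he : e ∈ C.deg n i)
    (b : Bool) : C.pE n b e = if decide (Odd i) = b then e else 0 := parProj_of_mem _ _ _ he

/-- The defining formula of the Koszul extension. -/
theorem koszulExt_tmul {k : ℕ} (f : MultilinearMap K (fun _ : Fin k => A.V) A.V)
    (i : Fin k → ℤ) (j : Fin k → ℕ) (v : Fin k → A.V) (e : Fin k → C.E n)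
    (hv : ∀ l, v l ∈ A.gr (i l)) (he : ∀ l, e l ∈ C.deg n (j l)) :
    A.koszulExt C n f (fun l => v l ⊗ₜ[K] e l) =
      kSign K (fun l => decide (Odd (j l))) (fun l => decide (Odd (i l))) •
        (f v ⊗ₜ[K] (List.ofFn e).prod) := by
  unfold koszulExt
  rw [sum_apply, Finset.sum_eq_single (fun l => decide (Odd (j l)))]
  · rw [sum_apply, Finset.sum_eq_single (fun l => decide (Odd (i l)))]
    · rw [smul_apply, MultilinearMap.compLinearMap_apply]
      congr 1
      have : (fun l => TensorProduct.map (A.pV (decide (Odd (i l)))) (C.pE n (decide (Odd (j l))))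
          (v l ⊗ₜ[K] e l)) = fun l => v l ⊗ₜ[K] e l := by
        funext l
        rw [TensorProduct.map_tmul, A.pV_of_mem (hv l), SDGA.pE_of_mem (he l), if_pos rfl,
          if_pos rfl]
      rw [this, T_tmul, MultilinearMap.mkPiAlgebraFin_apply]
    · intro c _ hc
      obtain ⟨l, hl⟩ := Function.ne_iff.1 hc
      rw [smul_apply, MultilinearMap.compLinearMap_apply,
        MultilinearMap.map_coord_zero _ l, smul_zero]
      rw [TensorProduct.map_tmul, A.pV_of_mem (hv l), if_neg (fun h => hl h.symm),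
        TensorProduct.zero_tmul]
    · intro h; exact absurd (Finset.mem_univ _) h
  · intro b _ hb
    obtain ⟨l, hl⟩ := Function.ne_iff.1 hb
    rw [sum_apply]
    refine Finset.sum_eq_zero (fun c _ => ?_)
    rw [smul_apply, MultilinearMap.compLinearMap_apply,
      MultilinearMap.map_coord_zero _ l, smul_zero]
    rw [TensorProduct.map_tmul, SDGA.pE_of_mem (he l), if_neg (fun h => hl h.symm),
      TensorProduct.tmul_zero]
  · intro h; exact absurd (Finset.mem_univ _) h

/-! ### Sign removal -/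

/-- `(-1)^{j (j-1) / 2}` -/
def sj (K : Type u) [Field K] : ℕ → K
  | 0 => 1
  | (j + 1) => (-1) ^ j * sj K j

theorem sj_sq (j : ℕ) : sj K j * sj K j = 1 := by
  induction j with
  | zero => simp [sj]
  | succ j ih =>
    have h : ((-1 : K) ^ j) * (-1) ^ j = 1 := by rw [← mul_pow]; simp
    rw [sj, mul_mul_mul_comm, ih, h, one_mul]

theorem sj_add (a b : ℕ) : sj K (a + b) = sj K a * sj K b * (-1) ^ (a * b) := by
  induction b with
  | zero => simp [sj]
  | succ b ih => rw [← add_assoc, sj, ih, sj, Nat.mul_succ, pow_add, pow_add]; ring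

theorem prod_sj (k : ℕ) (j : ℕ → ℕ) :
    (∏ l ∈ Finset.range k, sj K (j l)) * sj K (∑ l ∈ Finset.range k, j l) =
      ∏ l ∈ Finset.range k, ∏ i ∈ Finset.range l, (-1 : K) ^ (j i * j l) := by
  induction k with
  | zero => simp [sj]
  | succ k ih =>
    rw [Finset.prod_range_succ, Finset.sum_range_succ, Finset.prod_range_succ
      (fun l => ∏ i ∈ Finset.range l, (-1 : K) ^ (j i * j l)), ← ih, sj_add,
      Finset.prod_pow_eq_pow_sum, ← Finset.sum_mul]
    have := sj_sq (K := K) (j k)
    linear_combination (∏ l ∈ Finset.range k, sj K (j l)) * sj K (∑ l ∈ Finset.range k, j l) *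
      (-1 : K) ^ ((∑ i ∈ Finset.range k, j i) * j k) * this

theorem dbl_prod {M : Type*} [CommMonoid M] (g : ℕ → ℕ → M) (k : ℕ) :
    ∏ i : Fin k, ∏ l : Fin k, (if (i : ℕ) < l then g i l else 1) =
      ∏ l ∈ Finset.range k, ∏ i ∈ Finset.range l, g i l := by
  induction k with
  | zero => simp
  | succ k ih =>
    rw [Fin.prod_univ_castSucc, Finset.prod_range_succ, ← ih]
    have h1 : ∏ l : Fin (k + 1), (if ((Fin.last k : Fin (k + 1)) : ℕ) < l then
        g (Fin.last k : Fin (k + 1)) l else 1) = 1 := by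
      refine Finset.prod_eq_one (fun l _ => if_neg ?_)
      have := l.isLt
      simp only [Fin.val_last]
      omega
    rw [h1, mul_one]
    have h2 : ∀ i : Fin k, ∏ l : Fin (k + 1), (if ((i.castSucc : Fin (k + 1)) : ℕ) < l then
        g (i.castSucc : Fin (k + 1)) l else 1) =
        (∏ l : Fin k, (if (i : ℕ) < l then g i l else 1)) * g i k := by
      intro i
      rw [Fin.prod_univ_castSucc]
      congr 1
      simp
    rw [Finset.prod_congr rfl (fun i _ => h2 i), Finset.prod_mul_distrib]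
    congr 1
    exact Fin.prod_univ_eq_prod_range (fun i => g i k) k

theorem kSign_eq (k : ℕ) (j : ℕ → ℕ) :
    kSign K (fun l : Fin k => decide (Odd (j l))) (fun l : Fin k => decide (Odd (j l))) =
      ∏ l ∈ Finset.range k, ∏ i ∈ Finset.range l, (-1 : K) ^ (j i * j l) := by
  rw [← dbl_prod, kSign]
  refine Finset.prod_congr rfl (fun i _ => Finset.prod_congr rfl (fun l _ => ?_))
  by_cases h : (i : ℕ) < l
  · rw [if_pos h]
    by_cases h1 : Odd (j i)
    · by_cases h2 : Odd (j l)
      · rw [if_pos ⟨h, by simpa using h1, by simpa using h2⟩, (h1.mul h2).neg_one_pow]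
      · rw [if_neg (by simp [h2])]
        rw [Nat.not_odd_iff_even] at h2
        rw [(h2.mul_left (j i)).neg_one_pow]
    · rw [if_neg (by simp [h1])]
      rw [Nat.not_odd_iff_even] at h1
      rw [(h1.mul_right (j l)).neg_one_pow]
  · rw [if_neg h, if_neg (fun h' => h h'.1)]

end CAInf

/-- the sign operator `(-1)^{j (j-1) / 2}` -/
noncomputable def _root_.Pool.Agent.Helper4.MCB.SDGA.psi {K : Type u} [Field K] (C : SDGA K)
    (n : SimplexCategory) : C.E n →ₗ[K] C.E n :=
  assemble (C.internal n) (fun i => CAInf.sj K i • (C.deg n i).subtype)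

namespace CAInf

variable {K : Type u} [Field K] (A : CAInf K) {C : SDGA K} {n : SimplexCategory}

theorem psi_of_mem {j : ℕ} {e : C.E n} (he : e ∈ C.deg n j) : C.psi n e = sj K j • e := by
  rw [SDGA.psi, assemble_of_mem _ _ j e he]; rfl

theorem psi_psi (e : C.E n) : C.psi n (C.psi n e) = e := by
  have : C.psi n ∘ₗ C.psi n = LinearMap.id := by
    apply lin_ext (C.internal n)
    intro j e he
    simp only [LinearMap.comp_apply, LinearMap.id_apply]
    rw [psi_of_mem he, map_smul, psi_of_mem he, smul_smul, sj_sq, one_smul]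
  exact LinearMap.congr_fun this e

theorem psi_mem {j : ℕ} {e : C.E n} (he : e ∈ C.deg n j) : C.psi n e ∈ C.deg n j := by
  rw [psi_of_mem he]; exact Submodule.smul_mem _ _ he

theorem psi_map {m : SimplexCategory} (a : m ⟶ n) (e : C.E n) :
    C.psi m (C.map a e) = C.map a (C.psi n e) := by
  have : C.psi m ∘ₗ (C.map a).toLinearMap = (C.map a).toLinearMap ∘ₗ C.psi n := by
    apply lin_ext (C.internal n)
    intro j e he
    simp only [LinearMap.comp_apply, AlgHom.toLinearMap_apply]
    rw [psi_of_mem he, psi_of_mem (C.map_mem a j e he), map_smul]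
  exact LinearMap.congr_fun this e

/-- homogeneous pure tensors of total degree zero -/
def hpure (A : CAInf K) (C : SDGA K) (n : SimplexCategory) : Set (A.V ⊗[K] C.E n) :=
  {x | ∃ (i : ℤ) (j : ℕ) (v : A.V) (e : C.E n),
    v ∈ A.gr i ∧ e ∈ C.deg n j ∧ i + j = 0 ∧ x = v ⊗ₜ[K] e}

theorem choose_hpure (k : ℕ) (x : ℕ → A.V ⊗[K] C.E n) (hx : ∀ l < k, x l ∈ A.hpure C n) :
    ∃ (j : ℕ → ℕ) (v : ℕ → A.V) (e : ℕ → C.E n), (∀ l, v l ∈ A.gr (-(j l : ℤ))) ∧
      (∀ l, e l ∈ C.deg n (j l)) ∧ ∀ l < k, x l = v l ⊗ₜ[K] e l := by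
  have : ∀ l, ∃ (j : ℕ) (v : A.V) (e : C.E n),
      v ∈ A.gr (-(j : ℤ)) ∧ e ∈ C.deg n j ∧ (l < k → x l = v ⊗ₜ[K] e) := by
    intro l
    by_cases h : l < k
    · obtain ⟨i, j, v, e, hv, he, hij, h'⟩ := hx l h
      have : i = -(j : ℤ) := by omega
      subst this
      exact ⟨j, v, e, hv, he, fun _ => h'⟩
    · exact ⟨0, 0, 0, Submodule.zero_mem _, Submodule.zero_mem _, fun h' => absurd h' h⟩
  choose j v e h1 h2 h3 using this
  exact ⟨j, v, e, h1, h2, h3⟩

theorem odd_neg_dec (j : ℕ) : decide (Odd (-(j : ℤ))) = decide (Odd j) := by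
  congr 1
  rw [eq_iff_iff, odd_neg, Int.odd_coe_nat]

theorem Pr_deg (k : ℕ) (j : ℕ → ℕ) (e : ℕ → C.E n) (he : ∀ l, e l ∈ C.deg n (j l)) :
    Pr k e ∈ C.deg n (∑ l ∈ Finset.range k, j l) := by
  induction k with
  | zero => simpa [Pr] using C.one_mem n
  | succ k ih =>
    rw [Pr, Finset.sum_range_succ]
    exact C.mul_mem n _ _ _ _ ih (he k)

/-- Sign removal for one operation. -/
theorem koszulExt_eq {k : ℕ} (f : MultilinearMap K (fun _ : Fin k => A.V) A.V)
    (x : ℕ → A.V ⊗[K] C.E n) (hx : ∀ l < k, x l ∈ A.Dg (C.deg n) 0) :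
    A.koszulExt C n f (fun l => x l) = LinearMap.lTensor A.V (C.psi n)
      (T k f (MultilinearMap.mkPiAlgebraFin K k (C.E n))
        (fun l => LinearMap.lTensor A.V (C.psi n) (x l))) := by
  rw [← sub_eq_zero]
  have := reduce (K := K) (fun x => A.koszulExt C n f (fun l => x l) -
      LinearMap.lTensor A.V (C.psi n)
      (T k f (MultilinearMap.mkPiAlgebraFin K k (C.E n))
        (fun l => LinearMap.lTensor A.V (C.psi n) (x l)))) k (fun _ => A.hpure C n) ⊥ ?_ ?_ x hx
  · simpa using this
  · intro m hm x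
    refine Lin.sub (Lin_sq _ hm x) (Lin.post ?_ _)
    refine Lin.pre (Φ := sq (T k f (MultilinearMap.mkPiAlgebraFin K k (C.E n))))
      (y := fun x i => LinearMap.lTensor A.V (C.psi n) (x i))
      (m' := m) (Lin_sq _ hm _) (L := LinearMap.lTensor A.V (C.psi n)) ?_
    intro a
    funext i
    by_cases hi : i = m
    · subst hi; simp
    · simp [Function.update_of_ne hi]
  · intro x hx
    obtain ⟨j, v, e, hv, he, hxe⟩ := A.choose_hpure k x hx
    rw [Submodule.mem_bot, sub_eq_zero]
    have h1 : (fun l : Fin k => x l) = fun l : Fin k => v l ⊗ₜ[K] e l :=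
      funext fun l => hxe l l.isLt
    have h2 : (fun l : Fin k => LinearMap.lTensor A.V (C.psi n) (x l)) =
        fun l : Fin k => v l ⊗ₜ[K] (sj K (j l) • e l) := by
      funext l
      rw [hxe l l.isLt, LinearMap.lTensor_tmul, psi_of_mem (he l)]
    rw [h1, h2, A.koszulExt_tmul f (fun l => -(j l : ℤ)) (fun l => j l) (fun l => v l)
      (fun l => e l) (fun l => hv l) (fun l => he l),
      T_tmul k f (MultilinearMap.mkPiAlgebraFin K k (C.E n)) (fun l => v l)
        (fun l => sj K (j l) • e l), MultilinearMap.map_smul_univ,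
      MultilinearMap.mkPiAlgebraFin_apply, Pr_ofFn]
    simp only [odd_neg_dec]
    rw [kSign_eq, LinearMap.lTensor_tmul, map_smul, psi_of_mem (Pr_deg k j e he), smul_smul,
      TensorProduct.tmul_smul, ← prod_sj, Fin.prod_univ_eq_prod_range (fun l => sj K (j l)) k]

theorem curvK_eq (N : ℕ) {y : A.V ⊗[K] C.E n} (hy : y ∈ A.Dg (C.deg n) 0) :
    A.curvK C n N y = LinearMap.lTensor A.V (C.psi n)
      (A.curv C n N (LinearMap.lTensor A.V (C.psi n) y)) := by
  unfold curvK curv
  rw [map_add, map_sum]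
  congr 1
  · exact Finset.sum_congr rfl (fun k _ => A.koszulExt_eq (A.Q k) (fun _ => y) (fun _ _ => hy))
  · induction hy using Submodule.span_induction with
    | mem y hy =>
      obtain ⟨i, j, v, e, hv, he, hij, rfl⟩ := hy
      rw [TensorProduct.map_tmul, LinearMap.lTensor_tmul, LinearMap.lTensor_tmul,
        LinearMap.lTensor_tmul, psi_of_mem he, map_smul, map_smul,
        psi_of_mem (C.d_mem n j e he), A.par_of_mem hv, smul_smul, TensorProduct.tmul_smul,
        ← TensorProduct.smul_tmul']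
      congr 1
      have hi : i = -(j : ℤ) := by omega
      subst hi
      rw [sj, mul_left_comm, sj_sq, mul_one]
      unfold sgn
      by_cases h : Even j
      · rw [h.neg_one_pow, if_pos (by simpa using h)]
      · rw [Nat.not_even_iff_odd] at h
        rw [h.neg_one_pow, if_neg (by simpa using h)]
    | zero => simp
    | add x y _ _ hx hy => simp only [map_add, hx, hy]
    | smul c x _ hx => simp only [map_smul, hx]

theorem psi_Dg {y : A.V ⊗[K] C.E n} (hy : y ∈ A.Dg (C.deg n) 0) :
    LinearMap.lTensor A.V (C.psi n) y ∈ A.Dg (C.deg n) 0 :=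
  A.lT_Dg 0 _ (fun _ _ he => psi_mem he) (by simp) hy

theorem psi_psi_t (y : A.V ⊗[K] C.E n) :
    LinearMap.lTensor A.V (C.psi n) (LinearMap.lTensor A.V (C.psi n) y) = y := by
  rw [A.lT_lT]
  have : C.psi n ∘ₗ C.psi n = LinearMap.id := by ext e; exact psi_psi e
  rw [this, LinearMap.lTensor_id]; rfl

theorem psi_pl {m : SimplexCategory} (a : m ⟶ n) (y : A.V ⊗[K] C.E n) :
    LinearMap.lTensor A.V (C.psi m) (A.pl C a y) =
      A.pl C a (LinearMap.lTensor A.V (C.psi n) y) := by
  unfold pl
  rw [A.lT_lT, A.lT_lT]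
  congr 2
  ext e
  exact psi_map a e

theorem psi_Fil_iff {p : ℕ} {y : A.V ⊗[K] C.E n} :
    LinearMap.lTensor A.V (C.psi n) y ∈ A.Fil (C.E n) p ↔ y ∈ A.Fil (C.E n) p := by
  constructor
  · intro h
    have := A.lT_Fil (C.psi n) h
    rwa [A.psi_psi_t] at this
  · exact A.lT_Fil _

theorem curvK_Fil {N p : ℕ} {y : A.V ⊗[K] C.E n} (hy : y ∈ A.Dg (C.deg n) 0) :
    A.curvK C n N y ∈ A.Fil (C.E n) p ↔
      A.curv C n N (LinearMap.lTensor A.V (C.psi n) y) ∈ A.Fil (C.E n) p := by
  rw [A.curvK_eq N hy, A.psi_Fil_iff]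

theorem curvK_pl {m : SimplexCategory} (a : m ⟶ n) {N p : ℕ} {y : A.V ⊗[K] C.E n}
    (hy : y ∈ A.Dg (C.deg n) 0) (h : A.curvK C n N y ∈ A.Fil (C.E n) p) :
    A.curvK C m N (A.pl C a y) ∈ A.Fil (C.E m) p := by
  rw [A.curvK_Fil (A.pl_Dg a hy), A.psi_pl, ← A.pl_curv]
  exact A.lT_Fil _ ((A.curvK_Fil hy).1 h)

/-- The simplicial set of solutions of the (Koszul signed) Maurer–Cartan equation in the completed
tensor product. -/
noncomputable def MCK (C : SDGA K) : SSet.{u} :=
  A.MCS C (fun n p y => A.curvK C n p y) (fun a _ _ hy h => A.curvK_pl a hy h)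

/-- Sign removal is an isomorphism of simplicial sets. -/
noncomputable def MCPK (C : SDGA K) : A.MCP C ≅ A.MCK C where
  hom :=
    { app := fun n => ↾fun x => ⟨CT.map (C.psi n.unop) x.1, by
        intro p
        obtain ⟨y, hy, hyx, hRy⟩ := x.2 p
        refine ⟨LinearMap.lTensor A.V (C.psi _) y, A.psi_Dg hy, ?_, ?_⟩
        · rw [CT.map_val, ← hyx]; rfl
        · change A.curvK C _ p _ ∈ _
          rw [A.curvK_Fil (A.psi_Dg hy), A.psi_psi_t]; exact hRy⟩
      naturality := by
        intro n m θ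
        ext x
        apply Subtype.ext
        apply CT.ext
        intro p
        change A.qmap _ p (A.qmap _ p (x.1.1 p)) = A.qmap _ p (A.qmap _ p (x.1.1 p))
        obtain ⟨y, hy⟩ := Submodule.Quotient.mk_surjective _ (x.1.1 p)
        rw [← hy]
        exact congrArg Submodule.Quotient.mk (A.psi_pl θ.unop y) }
  inv :=
    { app := fun n => ↾fun x => ⟨CT.map (C.psi n.unop) x.1, by
        intro p
        obtain ⟨y, hy, hyx, hRy⟩ := x.2 p
        refine ⟨LinearMap.lTensor A.V (C.psi _) y, A.psi_Dg hy, ?_, ?_⟩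
        · rw [CT.map_val, ← hyx]; rfl
        · exact (A.curvK_Fil hy).1 hRy⟩
      naturality := by
        intro n m θ
        ext x
        apply Subtype.ext
        apply CT.ext
        intro p
        change A.qmap _ p (A.qmap _ p (x.1.1 p)) = A.qmap _ p (A.qmap _ p (x.1.1 p))
        obtain ⟨y, hy⟩ := Submodule.Quotient.mk_surjective _ (x.1.1 p)
        rw [← hy]
        exact congrArg Submodule.Quotient.mk (A.psi_pl θ.unop y) }
  hom_inv_id := by
    ext n x
    apply Subtype.ext
    apply CT.ext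
    intro p
    change A.qmap _ p (A.qmap _ p (x.1.1 p)) = x.1.1 p
    obtain ⟨y, hy⟩ := Submodule.Quotient.mk_surjective _ (x.1.1 p)
    rw [← hy]
    exact congrArg Submodule.Quotient.mk (A.psi_psi_t y)
  inv_hom_id := by
    ext n x
    apply Subtype.ext
    apply CT.ext
    intro p
    change A.qmap _ p (A.qmap _ p (x.1.1 p)) = x.1.1 p
    obtain ⟨y, hy⟩ := Submodule.Quotient.mk_surjective _ (x.1.1 p)
    rw [← hy]
    exact congrArg Submodule.Quotient.mk (A.psi_psi_t y)

end CAInf

end Pool.Agent.Helper4.MCA
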