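import Pool.Agent.Helper4.MCA.Koszul

/-!
The symmetrized `L_∞` structure.
-/

open scoped TensorProduct
open CategoryTheory Opposite

universe u

namespace Pool.Agent.Helper4.MCA

open MCB

/-- The Koszul sign `ε(σ)` of a permutation, with `x_1 ⋯ x_k = ε(σ) x_{σ(1)} ⋯ x_{σ(k)}` in the free
graded commutative algebra, where `c i` is the parity of `x_i`: the product of
`(-1)^{|x_{σ(i)}| |x_{σ(j)}|}` over the inversions `i < j`, `σ(i) > σ(j)`. -/
def permSign (K : Type u) [Field K] {k : ℕ} (σ : Equiv.Perm (Fin k)) (c : Fin k → Bool) : K :=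
  ∏ i : Fin k, ∏ j : Fin k,
    if i < j ∧ σ j < σ i ∧ c (σ i) = true ∧ c (σ j) = true then -1 else 1

section Lists

variable {K : Type u} [Field K] {k : ℕ} (c : Fin k → Bool)

/-- sign of an inversion -/
def finv (K : Type u) [Field K] (c : Fin k → Bool) (a b : Fin k) : K :=
  if b < a ∧ c a = true ∧ c b = true then -1 else 1

/-- sign of a list -/
def sgnL (K : Type u) [Field K] (c : Fin k → Bool) : List (Fin k) → K
  | [] => 1
  | (a :: L) => (L.map (finv K c a)).prod * sgnL K c L

theorem sgnL_ofFn (m : ℕ) (g : Fin m → Fin k) : sgnL K c (List.ofFn g) =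
    ∏ i : Fin m, ∏ j : Fin m,
      if i < j ∧ g j < g i ∧ c (g i) = true ∧ c (g j) = true then (-1 : K) else 1 := by
  induction m with
  | zero => simp [sgnL]
  | succ m ih =>
    rw [List.ofFn_succ, sgnL, ih, Fin.prod_univ_succ]
    congr 1
    · rw [Fin.prod_univ_succ, if_neg (by simp), one_mul, List.map_ofFn, List.prod_ofFn]
      refine Finset.prod_congr rfl (fun j _ => ?_)
      simp [finv]
    · refine Finset.prod_congr rfl (fun i _ => ?_)
      rw [Fin.prod_univ_succ, if_neg (by simp), one_mul]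
      refine Finset.prod_congr rfl (fun j _ => ?_)
      simp

theorem sgnL_id : sgnL K c (List.ofFn (fun i : Fin k => i)) = 1 := by
  rw [sgnL_ofFn]
  refine Finset.prod_eq_one (fun i _ => Finset.prod_eq_one (fun j _ => if_neg ?_))
  rintro ⟨h1, h2, _⟩
  exact lt_asymm h1 h2

theorem perm_lemma {E : Type u} [Ring E] [Algebra K E] {dE : ℕ → Submodule K E}
    (gc : ∀ i j, ∀ x ∈ dE i, ∀ y ∈ dE j, x * y = (-1 : K) ^ (i * j) • (y * x))
    (j : Fin k → ℕ) (e : Fin k → E) (he : ∀ l, e l ∈ dE (j l))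
    (hc : ∀ l, c l = decide (Odd (j l)))
    {L1 L2 : List (Fin k)} (h : L1.Perm L2) :
    sgnL K c L1 • (L1.map e).prod = sgnL K c L2 • (L2.map e).prod := by
  induction h with
  | nil => rfl
  | @cons a L1 L2 hL ih =>
    rw [sgnL, sgnL, List.map_cons, List.map_cons, List.prod_cons, List.prod_cons, mul_smul,
      mul_smul, ← mul_smul_comm, ← mul_smul_comm, ih, (hL.map _).prod_eq, mul_smul_comm,
      mul_smul_comm]
  | @swap a b L =>
    by_cases hab : a = b
    · rw [hab]
    · simp only [sgnL, List.map_cons, List.prod_cons]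
      rw [← mul_assoc (e b), ← mul_assoc (e a), gc _ _ _ (he b) _ (he a), smul_mul_assoc, smul_smul]
      congr 1
      have h1 : finv K c b a * (-1) ^ (j b * j a) = finv K c a b := by
        unfold finv
        rw [hc a, hc b]
        by_cases ha : Odd (j a)
        · by_cases hb : Odd (j b)
          · rw [(hb.mul ha).neg_one_pow]
            simp only [ha, hb, decide_true, and_self, and_true]
            rcases lt_or_gt_of_ne hab with h | h
            · rw [if_pos h, if_neg (not_lt_of_gt h)]; ring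
            · rw [if_neg (not_lt_of_gt h), if_pos h]; ring
          · have hb' := Nat.not_odd_iff_even.1 hb
            rw [(hb'.mul_right (j a)).neg_one_pow]
            simp [hb]
        · have ha' := Nat.not_odd_iff_even.1 ha
          rw [(ha'.mul_left (j b)).neg_one_pow]
          simp [ha]
      rw [← h1]; ring
  | trans _ _ ih1 ih2 => rw [ih1, ih2]

theorem prod_perm {E : Type u} [Ring E] [Algebra K E] {dE : ℕ → Submodule K E}
    (gc : ∀ i j, ∀ x ∈ dE i, ∀ y ∈ dE j, x * y = (-1 : K) ^ (i * j) • (y * x))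
    (j : Fin k → ℕ) (e : Fin k → E) (he : ∀ l, e l ∈ dE (j l)) (σ : Equiv.Perm (Fin k)) :
    (List.ofFn e).prod = permSign K σ (fun l => decide (Odd (j l))) •
      (List.ofFn (fun l => e (σ l))).prod := by
  have h := perm_lemma (K := K) (fun l => decide (Odd (j l))) gc j e he (fun _ => rfl)
    (Equiv.Perm.ofFn_comp_perm σ (fun l => l)).symm
  rw [sgnL_id, one_smul, List.map_ofFn, List.map_ofFn] at h
  have e2 : sgnL K (fun l => decide (Odd (j l))) (List.ofFn ((fun l => l) ∘ σ)) =
      permSign K σ (fun l => decide (Odd (j l))) := sgnL_ofFn _ _ _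
  rw [e2] at h
  exact h

end Lists

theorem permSign_sq {K : Type u} [Field K] {k : ℕ} (σ : Equiv.Perm (Fin k)) (c : Fin k → Bool) :
    permSign K σ c * permSign K σ c = 1 := by
  unfold permSign
  rw [← Finset.prod_mul_distrib]
  refine Finset.prod_eq_one (fun i _ => ?_)
  rw [← Finset.prod_mul_distrib]
  refine Finset.prod_eq_one (fun j _ => ?_)
  split_ifs <;> ring

namespace CAInf

variable {K : Type u} [Field K] (A : CAInf K)

/-- The operations of the symmetrization `L_A`:
`ℓ_k (x_1, …, x_k) = ∑_σ ε(σ) Q_k (x_{σ(1)}, …, x_{σ(k)})`. -/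
noncomputable def ell (k : ℕ) : MultilinearMap K (fun _ : Fin k => A.V) A.V :=
  ∑ σ : Equiv.Perm (Fin k), ∑ c : Fin k → Bool, permSign K σ c •
    ((A.Q k).compLinearMap (fun i => A.pV (c (σ i)))).domDomCongr σ

/-- The defining formula of `ℓ_k`. -/
theorem ell_apply (k : ℕ) (i : Fin k → ℤ) (v : Fin k → A.V) (hv : ∀ l, v l ∈ A.gr (i l)) :
    A.ell k v = ∑ σ : Equiv.Perm (Fin k), permSign K σ (fun l => decide (Odd (i l))) •
      A.Q k (fun l => v (σ l)) := by
  unfold ell
  rw [sum_apply]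
  refine Finset.sum_congr rfl (fun σ _ => ?_)
  rw [sum_apply, Finset.sum_eq_single (fun l => decide (Odd (i l)))]
  · rw [smul_apply, MultilinearMap.domDomCongr_apply, MultilinearMap.compLinearMap_apply]
    congr 2
    funext l
    rw [A.pV_of_mem (hv (σ l)), if_pos rfl]
  · intro c _ hc
    obtain ⟨l, hl⟩ := Function.ne_iff.1 hc
    rw [smul_apply, MultilinearMap.domDomCongr_apply, MultilinearMap.compLinearMap_apply,
      MultilinearMap.map_coord_zero _ (σ.symm l), smul_zero]
    rw [A.pV_of_mem (hv _), Equiv.apply_symm_apply, if_neg (fun h => hl h.symm)]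
  · intro h; exact absurd (Finset.mem_univ _) h

variable (C : SDGA K) (n : SimplexCategory)

/-- The curvature `∑_k (1/k!) ℓ_k (y, …, y)` of the symmetrization in `L_A ⊗ E` (where `ℓ_k` is
extended with Koszul signs, and `ℓ_1` on `L_A ⊗ E` also contains `id ⊗ d`), up to terms in the
`N`-th step of the filtration. -/
noncomputable def curvL (N : ℕ) (y : A.V ⊗[K] C.E n) : A.V ⊗[K] C.E n :=
  ∑ k ∈ Finset.range N, ((k.factorial : K)⁻¹) • A.koszulExt C n (A.ell k) (fun _ => y) +
    TensorProduct.map A.par (C.d n) y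

variable {C n}

theorem T_ell (gc : ∀ i j, ∀ x ∈ C.deg n i, ∀ y ∈ C.deg n j,
      x * y = (-1 : K) ^ (i * j) • (y * x)) (k : ℕ)
    (x : ℕ → A.V ⊗[K] C.E n) (hx : ∀ l < k, x l ∈ A.Dg (C.deg n) 0) :
    T k (A.ell k) (MultilinearMap.mkPiAlgebraFin K k (C.E n)) (fun l => x l) =
      ∑ σ : Equiv.Perm (Fin k), A.TQ (C.E n) k (fun l => x (σ l)) := by
  rw [← sub_eq_zero]
  have := reduce (K := K) (fun x => T k (A.ell k)
      (MultilinearMap.mkPiAlgebraFin K k (C.E n)) (fun l => x l) -
      ∑ σ : Equiv.Perm (Fin k), A.TQ (C.E n) k (fun l => x (σ l))) k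
      (fun _ => A.hpure C n) ⊥ ?_ ?_ x hx
  · simpa using this
  · intro m hm x
    refine Lin.sub (Lin_sq _ hm x) (Lin.sum _ (fun σ _ => ?_))
    exact Lin_sq ((A.TQ (C.E n) k).domDomCongr σ) hm x
  · intro x hx
    obtain ⟨j, v, e, hv, he, hxe⟩ := A.choose_hpure k x hx
    rw [Submodule.mem_bot, sub_eq_zero]
    have h1 : (fun l : Fin k => x l) = fun l : Fin k => v l ⊗ₜ[K] e l :=
      funext fun l => hxe l l.isLt
    rw [h1, T_tmul k (A.ell k) (MultilinearMap.mkPiAlgebraFin K k (C.E n)) (fun l => v l)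
      (fun l => e l), MultilinearMap.mkPiAlgebraFin_apply,
      A.ell_apply k (fun l => -(j l : ℤ)) (fun l => v l) (fun l => hv l),
      TensorProduct.sum_tmul]
    simp only [odd_neg_dec]
    refine Finset.sum_congr rfl (fun σ _ => ?_)
    have h2 : (fun l : Fin k => x (σ l)) = fun l : Fin k => v (σ l) ⊗ₜ[K] e (σ l) :=
      funext fun l => hxe _ (σ l).isLt
    rw [h2, TQ, T_tmul k (A.Q k) (MultilinearMap.mkPiAlgebraFin K k (C.E n))
      (fun l => v (σ l)) (fun l => e (σ l)), MultilinearMap.mkPiAlgebraFin_apply,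
      prod_perm gc (fun l => j l) (fun l => e l) (fun l => he l) σ, TensorProduct.tmul_smul,
      ← TensorProduct.smul_tmul', smul_smul, permSign_sq, one_smul]

theorem curvL_eq [CharZero K] (gc : ∀ i j, ∀ x ∈ C.deg n i, ∀ y ∈ C.deg n j,
      x * y = (-1 : K) ^ (i * j) • (y * x)) (N : ℕ) {y : A.V ⊗[K] C.E n}
    (hy : y ∈ A.Dg (C.deg n) 0) : A.curvL C n N y = A.curvK C n N y := by
  unfold curvL curvK
  congr 1
  refine Finset.sum_congr rfl (fun k _ => ?_)
  have h1 := A.koszulExt_eq (A.ell k) (fun _ => y) (fun _ _ => hy)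
  have h2 := A.koszulExt_eq (A.Q k) (fun _ => y) (fun _ _ => hy)
  have h3 := A.T_ell gc k (fun _ => LinearMap.lTensor A.V (C.psi n) y)
    (fun _ _ => A.psi_Dg hy)
  rw [h1, h2, h3, Finset.sum_const, Finset.card_univ, Fintype.card_perm, Fintype.card_fin,
    map_nsmul]
  rw [← Nat.cast_smul_eq_nsmul K, smul_smul, inv_mul_cancel₀
    (Nat.cast_ne_zero.2 (Nat.factorial_ne_zero k)), one_smul]
  rfl

end CAInf

end Pool.Agent.Helper4.MCA
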