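import Pool.Agent.Helper4.MCA.Stage
import Pool.Agent.Helper4.MCB.RLP

/-!
Maurer-Cartan simplicial sets in the completed tensor product.
-/

open scoped TensorProduct
open CategoryTheory Simplicial Opposite

universe u

namespace Pool.Agent.Helper4.MCA

open MCB

namespace CAInf

variable {K : Type u} [Field K] (A : CAInf K)

/-- The completed tensor product `V ⊗^ E = lim_p (V ⊗ E) / F^p`, as compatible sequences. -/
structure CT (E : Type u) [Ring E] [Algebra K E] : Type u where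
  val : ∀ p : ℕ, (A.V ⊗[K] E) ⧸ A.Fil E p
  compat : ∀ p, Submodule.factor (A.Fil_anti (E := E) (Nat.le_succ p)) (val (p + 1)) = val p

theorem CT.ext {A : CAInf K} {E : Type u} [Ring E] [Algebra K E] {x y : A.CT E}
    (h : ∀ p, x.1 p = y.1 p) : x = y := by
  cases x; cases y
  congr 1
  exact funext h

/-- The map induced by `1 ⊗ g` on the quotients by the filtration. -/
noncomputable def qmap {E E' : Type u} [Ring E] [Algebra K E] [Ring E'] [Algebra K E']
    (g : E →ₗ[K] E') (p : ℕ) : ((A.V ⊗[K] E) ⧸ A.Fil E p) →ₗ[K] ((A.V ⊗[K] E') ⧸ A.Fil E' p) :=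
  Submodule.mapQ (A.Fil E p) (A.Fil E' p) (LinearMap.lTensor A.V g)
    (fun _ hx => Submodule.mem_comap.2 (A.lT_Fil g hx))

theorem qmap_mk {E E' : Type u} [Ring E] [Algebra K E] [Ring E'] [Algebra K E']
    (g : E →ₗ[K] E') (p : ℕ) (y : A.V ⊗[K] E) :
    A.qmap g p (Submodule.Quotient.mk y) = Submodule.Quotient.mk (LinearMap.lTensor A.V g y) := rfl

/-- The functoriality of the completed tensor product. -/
noncomputable def CT.map {A : CAInf K} {E E' : Type u} [Ring E] [Algebra K E] [Ring E'] [Algebra K E']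
    (g : E →ₗ[K] E') (x : A.CT E) : A.CT E' :=
  ⟨fun p => A.qmap g p (x.1 p), by
    intro p
    have hx := x.2 p
    obtain ⟨y, hy⟩ := Submodule.Quotient.mk_surjective _ (x.1 (p + 1))
    change Submodule.factor _ (A.qmap g (p + 1) (x.1 (p + 1))) = A.qmap g p (x.1 p)
    rw [← hx, ← hy]
    rfl⟩

theorem CT.map_val {A : CAInf K} {E E' : Type u} [Ring E] [Algebra K E] [Ring E'] [Algebra K E']
    (g : E →ₗ[K] E') (x : A.CT E) (p : ℕ) : (CT.map g x).1 p = A.qmap g p (x.1 p) := rfl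

/-- The solution set of the Maurer–Cartan equation `R = 0` in degree `0`. Here `R p y` is the
curvature of `y` up to terms in the `p`-th step of the filtration. -/
def IsSol {E : Type u} [Ring E] [Algebra K E] (dE : ℕ → Submodule K E)
    (R : ℕ → A.V ⊗[K] E → A.V ⊗[K] E) (x : A.CT E) : Prop :=
  ∀ p, ∃ y ∈ A.Dg dE 0, Submodule.Quotient.mk y = x.1 p ∧ R p y ∈ A.Fil E p

/-- The simplicial set of solutions. -/
noncomputable def MCS (C : SDGA K) (R : ∀ n, ℕ → A.V ⊗[K] C.E n → A.V ⊗[K] C.E n)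
    (hR : ∀ {m n : SimplexCategory} (a : m ⟶ n) (p : ℕ) (y : A.V ⊗[K] C.E n),
      y ∈ A.Dg (C.deg n) 0 → R n p y ∈ A.Fil (C.E n) p →
        R m p (A.pl C a y) ∈ A.Fil (C.E m) p) : SSet.{u} where
  obj n := {x : A.CT (C.E n.unop) // A.IsSol (C.deg n.unop) (R n.unop) x}
  map {n m} θ := ↾fun x => ⟨CT.map (C.map θ.unop).toLinearMap x.1, by
    intro p
    obtain ⟨y, hy, hyx, hRy⟩ := x.2 p
    refine ⟨A.pl C θ.unop y, A.pl_Dg _ hy, ?_, hR _ p y hy hRy⟩
    rw [CT.map_val, ← hyx]; rfl⟩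
  map_id n := by
    ext x
    apply CT.ext
    intro p
    change A.qmap _ p (x.1.1 p) = x.1.1 p
    obtain ⟨y, hy⟩ := Submodule.Quotient.mk_surjective _ (x.1.1 p)
    rw [← hy]
    exact congrArg Submodule.Quotient.mk (A.pl_id _ y)
  map_comp {n m l} a b := by
    ext x
    apply CT.ext
    intro p
    change A.qmap _ p (x.1.1 p) = A.qmap _ p (A.qmap _ p (x.1.1 p))
    obtain ⟨y, hy⟩ := Submodule.Quotient.mk_surjective _ (x.1.1 p)
    rw [← hy]
    exact congrArg Submodule.Quotient.mk (A.pl_comp b.unop a.unop y)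

section Plain

variable (C : SDGA K)

/-- The simplicial set of solutions of the unsigned Maurer–Cartan equation. -/
noncomputable def MCP : SSet.{u} :=
  A.MCS C (fun n p y => A.curv C n p y) (by
    intro m n a p y _ h
    rw [← A.pl_curv]
    exact A.lT_Fil _ h)

variable {C} {B : SDGA K} (π : SDGA.Hom B C)

/-- The map on solutions. -/
noncomputable def MCP.map : A.MCP B ⟶ A.MCP C where
  app n := ↾fun x => ⟨CT.map (π.f n.unop).toLinearMap x.1, by
    intro p
    obtain ⟨y, hy, hyx, hRy⟩ := x.2 p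
    refine ⟨A.pj π _ y, A.pj_Dg π hy, ?_, ?_⟩
    · rw [CT.map_val, ← hyx]; rfl
    · change A.curv C _ p (A.pj π _ y) ∈ _
      rw [← A.pj_curv]; exact A.lT_Fil _ hRy⟩
  naturality n m θ := by
    ext x
    apply Subtype.ext
    apply CT.ext
    intro p
    change A.qmap _ p (A.qmap _ p (x.1.1 p)) = A.qmap _ p (A.qmap _ p (x.1.1 p))
    obtain ⟨y, hy⟩ := Submodule.Quotient.mk_surjective _ (x.1.1 p)
    rw [← hy]
    exact congrArg Submodule.Quotient.mk (A.pj_pl π θ.unop y)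

theorem exists_seq {α : Type*} (P : ℕ → α → Prop) (R : ℕ → α → α → Prop) (h0 : ∃ a, P 0 a)
    (hs : ∀ p a, P p a → ∃ b, P (p + 1) b ∧ R p a b) :
    ∃ f : ℕ → α, ∀ p, P p (f p) ∧ R p (f p) (f (p + 1)) := by
  classical
  obtain ⟨a0, ha0⟩ := h0
  choose! nx hnx using hs
  let f : ℕ → α := fun p => Nat.rec a0 (fun p a => nx p a) p
  have hf : ∀ p, P p (f p) := by
    intro p
    induction p with
    | zero => exact ha0
    | succ p ih => exact (hnx p (f p) ih).1
  exact ⟨f, fun p => ⟨hf p, (hnx p (f p) (hf p)).2⟩⟩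

theorem mk_eq {E : Type u} [Ring E] [Algebra K E] {p : ℕ} {x y : A.V ⊗[K] E} :
    (Submodule.Quotient.mk x : (A.V ⊗[K] E) ⧸ A.Fil E p) = Submodule.Quotient.mk y ↔
      x - y ∈ A.Fil E p := Submodule.Quotient.eq _

/-- the element of the completed tensor product attached to a Cauchy sequence -/
noncomputable def CT.ofSeq {E : Type u} [Ring E] [Algebra K E] (y : ℕ → A.V ⊗[K] E)
    (hy : ∀ p, y (p + 1) - y p ∈ A.Fil E p) : A.CT E :=
  ⟨fun p => Submodule.Quotient.mk (y p), fun p => by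
    change (Submodule.Quotient.mk (y (p + 1)) : (A.V ⊗[K] E) ⧸ A.Fil E p) = _
    exact A.mk_eq.2 (hy p)⟩

/-- a representative of level `p + 1` also represents level `p` -/
theorem CT.down {E : Type u} [Ring E] [Algebra K E] (x : A.CT E) {p : ℕ} {y : A.V ⊗[K] E}
    (h : Submodule.Quotient.mk y = x.1 (p + 1)) : Submodule.Quotient.mk y = x.1 p := by
  rw [← x.2 p, ← h]; rfl

variable (τ : B.Cone) (hs : ∀ n i y, y ∈ C.deg n i → ∃ x ∈ B.deg n i, π.f n x = y)
  (hcon : ∀ n : SimplexCategory, ∃ h : B.E n →ₗ[K] B.E n,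
    (∀ i, ∀ x ∈ B.deg n (i + 1), h x ∈ B.deg n i) ∧ (∀ x ∈ B.deg n 0, h x = 0) ∧
      (∀ x, h x ∈ SDGA.J π n) ∧ ∀ x ∈ SDGA.J π n, B.d n (h x) + h (B.d n x) = x)

include τ hs hcon in
theorem fills : Fills (MCP.map A π) := by
  constructor
  · intro z
    obtain ⟨y, hy⟩ := exists_seq (α := A.V ⊗[K] B.E ⦋0⦌)
      (P := fun p y => y ∈ A.Dg (B.deg _) 0 ∧ A.curv B _ p y ∈ A.Fil _ p ∧
        Submodule.Quotient.mk (A.pj π _ y) = z.1.1 p)
      (R := fun p y y' => y' - y ∈ A.Fil _ p)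
      (by
        refine ⟨0, Submodule.zero_mem _, by rw [A.Fil_zero]; trivial, ?_⟩
        obtain ⟨Z, hZ⟩ := Submodule.Quotient.mk_surjective _ (z.1.1 0)
        rw [← hZ, A.mk_eq, A.Fil_zero]; trivial)
      (by
        rintro p y ⟨hy1, hy2, hy3⟩
        obtain ⟨Z, hZ1, hZ2, hZ3⟩ := z.2 (p + 1)
        obtain ⟨y', h1, h2, h3, h4⟩ := A.stage_zero π hs hcon p hy1 hy2 hZ1 hZ3
          (A.mk_eq.1 (hy3.trans (CT.down A z.1 hZ2).symm))
        exact ⟨y', ⟨h1, h4, (A.mk_eq.2 h3).trans hZ2⟩, h2⟩)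
    refine ⟨⟨CT.ofSeq A y (fun p => (hy p).2), fun p => ⟨y p, (hy p).1.1, rfl, (hy p).1.2.1⟩⟩, ?_⟩
    apply Subtype.ext
    apply CT.ext
    intro p
    exact (hy p).1.2.2
  · intro n x z hcompat hxz
    -- projections of the given data at each level
    have hXZ : ∀ p i, ∀ X Z, Submodule.Quotient.mk X = (x i).1.1 p →
        Submodule.Quotient.mk Z = z.1.1 p →
        A.pj π _ X - A.pl C (SimplexCategory.δ i) Z ∈ A.Fil _ p := by
      intro p i X Z hX hZ
      have h1 := congrArg (fun w => w.1.1 p) (hxz i)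
      have h2 : A.qmap (π.f ⦋n⦌).toLinearMap p ((x i).1.1 p) =
          A.qmap (C.map (SimplexCategory.δ i)).toLinearMap p (z.1.1 p) := h1
      rw [← hX, ← hZ] at h2
      exact A.mk_eq.1 h2
    have hXX : ∀ p i j (m : SimplexCategory) (a b : m ⟶ ⦋n⦌),
        a ≫ SimplexCategory.δ i = b ≫ SimplexCategory.δ j → ∀ X X',
        Submodule.Quotient.mk X = (x i).1.1 p → Submodule.Quotient.mk X' = (x j).1.1 p →
        A.pl B a X - A.pl B b X' ∈ A.Fil _ p := by
      intro p i j m a b hab X X' hX hX'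
      have h1 := congrArg (fun w => w.1.1 p) (hcompat i j m a b hab)
      have h2 : A.qmap (B.map a).toLinearMap p ((x i).1.1 p) =
          A.qmap (B.map b).toLinearMap p ((x j).1.1 p) := h1
      rw [← hX, ← hX'] at h2
      exact A.mk_eq.1 h2
    obtain ⟨y, hy⟩ := exists_seq (α := A.V ⊗[K] B.E ⦋n + 1⦌)
      (P := fun p y => y ∈ A.Dg (B.deg _) 0 ∧ A.curv B _ p y ∈ A.Fil _ p ∧
        Submodule.Quotient.mk (A.pj π _ y) = z.1.1 p ∧
        ∀ i, Submodule.Quotient.mk (A.pl B (SimplexCategory.δ i) y) = (x i).1.1 p)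
      (R := fun p y y' => y' - y ∈ A.Fil _ p)
      (by
        refine ⟨0, Submodule.zero_mem _, by rw [A.Fil_zero]; trivial, ?_, fun i => ?_⟩
        · obtain ⟨Z, hZ⟩ := Submodule.Quotient.mk_surjective _ (z.1.1 0)
          rw [← hZ, A.mk_eq, A.Fil_zero]; trivial
        · obtain ⟨Z, hZ⟩ := Submodule.Quotient.mk_surjective _ ((x i).1.1 0)
          rw [← hZ, A.mk_eq, A.Fil_zero]; trivial)
      (by
        rintro p y ⟨hy1, hy2, hy3, hy4⟩
        obtain ⟨Z, hZ1, hZ2, hZ3⟩ := z.2 (p + 1)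
        have hX := fun i => (x i).2 (p + 1)
        choose X hX1 hX2 hX3 using hX
        obtain ⟨y', h1, h2, h3, h4, h5⟩ := A.stage_succ π τ hs hcon p hy1 hy2 hZ1 hZ3 hX1 hX3
          (A.mk_eq.1 (hy3.trans (CT.down A z.1 hZ2).symm))
          (fun i => A.mk_eq.1 ((hy4 i).trans (CT.down A (x i).1 (hX2 i)).symm))
          (fun i => hXZ (p + 1) i _ _ (hX2 i) hZ2)
          (fun i j m a b hab => hXX (p + 1) i j m a b hab _ _ (hX2 i) (hX2 j))
        exact ⟨y', ⟨h1, h5, (A.mk_eq.2 h3).trans hZ2, fun i => (A.mk_eq.2 (h4 i)).trans (hX2 i)⟩,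
          h2⟩)
    refine ⟨⟨CT.ofSeq A y (fun p => (hy p).2), fun p => ⟨y p, (hy p).1.1, rfl, (hy p).1.2.1⟩⟩,
      fun i => ?_, ?_⟩
    · apply Subtype.ext
      apply CT.ext
      intro p
      exact (hy p).1.2.2.2 i
    · apply Subtype.ext
      apply CT.ext
      intro p
      exact (hy p).1.2.2.1

end Plain

end CAInf

end Pool.Agent.Helper4.MCA
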