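import Pool.Agent.Helper4.MCA.Direct

/-!
The main theorem.
-/

open scoped TensorProduct
open CategoryTheory Opposite

universe u

namespace Pool.Agent.Helper4.MCA

open MCB

namespace CAInf

variable {K : Type u} [Field K] [CharZero K] (A : CAInf K)

theorem omega_gc (n : SimplexCategory) : ∀ i j, ∀ x ∈ (omegaDGA K).deg n i,
    ∀ y ∈ (omegaDGA K).deg n j, x * y = (-1 : K) ^ (i * j) • (y * x) :=
  fun _ _ _ hx _ hy => Omega.gcomm hx hy

theorem curvL_omega {n : SimplexCategory} (N : ℕ) {y : A.V ⊗[K] (omegaDGA K).E n}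
    (hy : y ∈ A.Dg ((omegaDGA K).deg n) 0) :
    A.curvL (omegaDGA K) n N y = A.curvK (omegaDGA K) n N y :=
  A.curvL_eq (omega_gc n) N hy

/-- The Hinich–Getzler simplicial set `MC_•(L_A)`: its `n`-simplices are the elements `x` of
degree `0` of the completed tensor product `L_A ⊗^ Ω_n` with `∑_k (1/k!) ℓ_k (x, …, x) = 0`. -/
noncomputable def MCL : SSet.{u} :=
  A.MCS (omegaDGA K) (fun n p y => A.curvL (omegaDGA K) n p y) (by
    intro m n a p y hy h
    rw [A.curvL_omega p hy] at h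
    rw [A.curvL_omega p (A.pl_Dg a hy)]
    exact A.curvK_pl a hy h)

/-- `MC_•(L_A)` agrees with the `A_∞` Maurer–Cartan simplicial set for `Ω`. -/
noncomputable def MCKL : A.MCK (omegaDGA K) ≅ A.MCL where
  hom :=
    { app := fun n => ↾fun x => ⟨x.1, fun p => by
        obtain ⟨y, hy, hyx, hR⟩ := x.2 p
        refine ⟨y, hy, hyx, ?_⟩
        change A.curvL (omegaDGA K) _ p y ∈ _
        rw [A.curvL_omega p hy]; exact hR⟩
      naturality := by intro n m θ; rfl }
  inv :=
    { app := fun n => ↾fun x => ⟨x.1, fun p => by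
        obtain ⟨y, hy, hyx, hR⟩ := x.2 p
        refine ⟨y, hy, hyx, ?_⟩
        change A.curvK (omegaDGA K) _ p y ∈ _
        rw [← A.curvL_omega p hy]; exact hR⟩
      naturality := by intro n m θ; rfl }
  hom_inv_id := by rfl
  inv_hom_id := by rfl

theorem rlp_comp_iso {X Y Z : SSet.{u}} {p : X ⟶ Y}
    (hp : (MorphismProperty.monomorphisms SSet.{u}).rlp p) (e : Y ⟶ Z) [IsIso e] :
    (MorphismProperty.monomorphisms SSet.{u}).rlp (p ≫ e) :=
  MorphismProperty.comp_mem _ _ _ hp (MorphismProperty.rlp_of_isIso _ e)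

theorem main : ∃ (f : A.MCN ⟶ A.MCL) (g : A.MCL ⟶ A.MCN),
    Nonempty (SSet.Homotopy (f ≫ g) (𝟙 A.MCN)) ∧ Nonempty (SSet.Homotopy (g ≫ f) (𝟙 A.MCL)) := by
  have h1 : (MorphismProperty.monomorphisms SSet.{u}).rlp
      (MCP.map A (piNCo K) ≫ ((A.MCPK (ncoDGA K)).hom ≫ inv A.MCNK)) :=
    rlp_comp_iso (A.fills (piNCo K) (freeCone K) (piNCo_surj K) (nco_contraction K)).rlp _
  have h2 : (MorphismProperty.monomorphisms SSet.{u}).rlp
      (MCP.map A (piOmega K) ≫ ((A.MCPK (omegaDGA K)).hom ≫ (A.MCKL).hom)) :=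
    rlp_comp_iso (A.fills (piOmega K) (freeCone K) (piOmega_surj K) (omega_contraction K)).rlp _
  exact equiv_of_span h1 h2

end CAInf

end Pool.Agent.Helper4.MCA
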