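import Pool.Agent.Helper4.MCA.Curv

/-!
The obstruction step.
-/

open scoped TensorProduct
open CategoryTheory Simplicial

universe u

namespace Pool.Agent.Helper4.MCA

open MCB

namespace CAInf

variable {K : Type u} [Field K] (A : CAInf K) {B C : SDGA K} (π : SDGA.Hom B C)

/-- pullback on `V ⊗ B` -/
noncomputable abbrev pl (B : SDGA K) {m n : SimplexCategory} (a : m ⟶ n) :
    A.V ⊗[K] B.E n →ₗ[K] A.V ⊗[K] B.E m := LinearMap.lTensor A.V (B.map a).toLinearMap

/-- the projection on `V ⊗ B` -/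
noncomputable abbrev pj (n : SimplexCategory) :
    A.V ⊗[K] B.E n →ₗ[K] A.V ⊗[K] C.E n := LinearMap.lTensor A.V (π.f n).toLinearMap

theorem pl_id (n : SimplexCategory) (x : A.V ⊗[K] B.E n) : A.pl B (𝟙 n) x = x := by
  have : (B.map (𝟙 n)).toLinearMap = LinearMap.id := by ext x; exact B.map_id n x
  unfold pl
  rw [this, LinearMap.lTensor_id]; rfl

theorem pl_comp {m n p : SimplexCategory} (a : m ⟶ n) (b : n ⟶ p) (x : A.V ⊗[K] B.E p) :
    A.pl B (a ≫ b) x = A.pl B a (A.pl B b x) := by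
  have : (B.map (a ≫ b)).toLinearMap = (B.map a).toLinearMap ∘ₗ (B.map b).toLinearMap := by
    ext x; exact B.map_comp a b x
  unfold pl
  rw [this, LinearMap.lTensor_comp]; rfl

theorem pj_pl {m n : SimplexCategory} (a : m ⟶ n) (x : A.V ⊗[K] B.E n) :
    A.pj π m (A.pl B a x) = A.pl C a (A.pj π n x) := by
  unfold pj pl
  rw [← LinearMap.comp_apply, ← LinearMap.comp_apply, ← LinearMap.lTensor_comp,
    ← LinearMap.lTensor_comp]
  congr 2
  ext x
  exact π.f_map a x

theorem pl_Dg {m n : SimplexCategory} (a : m ⟶ n) {k : ℤ} {x : A.V ⊗[K] B.E n}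
    (hx : x ∈ A.Dg (B.deg n) k) : A.pl B a x ∈ A.Dg (B.deg m) k :=
  A.lT_Dg 0 _ (fun j e he => B.map_mem a j e he) (by simp) hx

theorem pj_Dg {n : SimplexCategory} {k : ℤ} {x : A.V ⊗[K] B.E n}
    (hx : x ∈ A.Dg (B.deg n) k) : A.pj π n x ∈ A.Dg (C.deg n) k :=
  A.lT_Dg 0 _ (fun j e he => π.f_mem n j e he) (by simp) hx

theorem pl_curv {m n : SimplexCategory} (a : m ⟶ n) (N : ℕ) (y : A.V ⊗[K] B.E n) :
    A.pl B a (A.curv B n N y) = A.curv B m N (A.pl B a y) :=
  A.curv_nat (B.map a) (B.map_d a) N y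

theorem pj_curv {n : SimplexCategory} (N : ℕ) (y : A.V ⊗[K] B.E n) :
    A.pj π n (A.curv B n N y) = A.curv C n N (A.pj π n y) :=
  A.curv_nat (π.f n) (π.f_d n) N y

theorem pj_surj (hs : ∀ n i y, y ∈ C.deg n i → ∃ x ∈ B.deg n i, π.f n x = y)
    {n : SimplexCategory} {k : ℤ} {z : A.V ⊗[K] C.E n} (hz : z ∈ A.Dg (C.deg n) k) :
    ∃ w ∈ A.Dg (B.deg n) k, A.pj π n w = z := by
  induction hz using Submodule.span_induction with
  | mem z hz =>
    obtain ⟨i, j, v, e, hv, he, hij, rfl⟩ := hz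
    obtain ⟨x, hx, rfl⟩ := hs n j e he
    exact ⟨v ⊗ₜ[K] x, A.tmul_Dg hv hx hij, rfl⟩
  | zero => exact ⟨0, Submodule.zero_mem _, map_zero _⟩
  | add x y _ _ hx hy =>
    obtain ⟨a, ha, rfl⟩ := hx
    obtain ⟨b, hb, rfl⟩ := hy
    exact ⟨a + b, Submodule.add_mem _ ha hb, map_add _ _ _⟩
  | smul c x _ hx =>
    obtain ⟨a, ha, rfl⟩ := hx
    exact ⟨c • a, Submodule.smul_mem _ c ha, map_smul _ _ _⟩

theorem lT_rT {E E' : Type u} [Ring E] [Algebra K E] [Ring E'] [Algebra K E'] (g : E →ₗ[K] E')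
    (f : A.V →ₗ[K] A.V) (x : A.V ⊗[K] E) :
    LinearMap.lTensor A.V g (LinearMap.rTensor E f x) =
      LinearMap.rTensor E' f (LinearMap.lTensor A.V g x) := by
  induction x using TensorProduct.induction_on with
  | zero => simp
  | tmul v e => rfl
  | add x y hx hy => simp only [map_add, hx, hy]

theorem lT_lT {E E' E'' : Type u} [Ring E] [Algebra K E] [Ring E'] [Algebra K E'] [Ring E'']
    [Algebra K E''] (g : E →ₗ[K] E') (g' : E' →ₗ[K] E'') (x : A.V ⊗[K] E) :
    LinearMap.lTensor A.V g' (LinearMap.lTensor A.V g x) = LinearMap.lTensor A.V (g' ∘ₗ g) x := by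
  rw [LinearMap.lTensor_comp]; rfl

theorem TQ1 {E : Type u} [Ring E] [Algebra K E] :
    ∃ L : A.V →ₗ[K] A.V, ∀ x : A.V ⊗[K] E, A.TQ E 1 (fun _ => x) = LinearMap.rTensor E L x := by
  let L : A.V →ₗ[K] A.V :=
    { toFun := fun v => A.Q 1 (fun _ => v)
      map_add' := by
        intro v w
        have e : ∀ z : A.V, (fun _ : Fin 1 => z) =
            Function.update (fun _ : Fin 1 => (0 : A.V)) 0 z := by
          intro z; funext i
          have : i = 0 := Subsingleton.elim _ _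
          subst this; simp
        rw [e (v + w), MultilinearMap.map_update_add, ← e, ← e]
      map_smul' := by
        intro c v
        have e : ∀ z : A.V, (fun _ : Fin 1 => z) =
            Function.update (fun _ : Fin 1 => (0 : A.V)) 0 z := by
          intro z; funext i
          have : i = 0 := Subsingleton.elim _ _
          subst this; simp
        rw [e (c • v), MultilinearMap.map_update_smul, ← e]; rfl }
  refine ⟨L, fun x => ?_⟩
  obtain ⟨M, hM⟩ := Lin_sq (A.TQ E 1) (m := 0) (by omega) (fun _ => 0)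
  have hx : ∀ x, A.TQ E 1 (fun _ => x) = M x := by
    intro x
    rw [← hM]
    unfold sq
    congr 1
    funext i
    have : i = 0 := Subsingleton.elim _ _
    subst this; simp
  rw [hx]
  induction x using TensorProduct.induction_on with
  | zero => simp
  | tmul v e =>
    rw [← hx]
    have := A.TQ_tmul 1 (fun _ => v) (fun _ => e)
    rw [this, LinearMap.rTensor_tmul]
    simp [Pr, L]
  | add x y h1 h2 => rw [map_add, map_add, h1, h2]

/-- The obstruction step. -/
theorem obstr {n : SimplexCategory} (h : B.E n →ₗ[K] B.E n)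
    (h1 : ∀ i, ∀ x ∈ B.deg n (i + 1), h x ∈ B.deg n i) (h0 : ∀ x ∈ B.deg n 0, h x = 0)
    (hJ : ∀ x, h x ∈ SDGA.J π n) (hh : ∀ x ∈ SDGA.J π n, B.d n (h x) + h (B.d n x) = x)
    (p : ℕ) {y : A.V ⊗[K] B.E n} (hy : y ∈ A.Dg (B.deg n) 0)
    (hc : A.curv B n (p + 1) y ∈ A.Fil (B.E n) p)
    (hbd : ∀ (m : SimplexCategory) (a : m ⟶ n), ¬ Function.Surjective a.toOrderHom →
      A.pl B a (A.curv B n (p + 1) y) ∈ A.Fil (B.E m) (p + 1))
    (hπ : A.pj π n (A.curv B n (p + 1) y) ∈ A.Fil (C.E n) (p + 1)) :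
    ∃ u ∈ A.Dg (B.deg n) 0, u ∈ A.Fil (B.E n) p ∧
      (∀ (m : SimplexCategory) (a : m ⟶ n), ¬ Function.Surjective a.toOrderHom →
        A.pl B a u = 0) ∧ A.pj π n u = 0 ∧
      A.curv B n (p + 1) (y + u) ∈ A.Fil (B.E n) (p + 1) := by
  by_cases hp : p = 0
  · subst hp
    refine ⟨0, Submodule.zero_mem _, Submodule.zero_mem _, fun m a _ => map_zero _, map_zero _, ?_⟩
    rw [zero_add, A.Fil_one]; trivial
  obtain ⟨κ, hκ1, hκ2, hκ3, hκ4⟩ := A.exists_kappa p
  set c := A.curv B n (p + 1) y with hcdef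
  set c' := LinearMap.rTensor (B.E n) κ c with hc'def
  have hc'Fil : c' ∈ A.Fil (B.E n) p := A.rT_Fil κ (fun v _ => hκ2 v) hc
  have hc'Dg : c' ∈ A.Dg (B.deg n) 1 := A.rT_Dg κ hκ1 (A.curv_Dg _ hy)
  have hcc' : c' - c ∈ A.Fil (B.E n) (p + 1) := by
    have := A.rT_Fil (E := B.E n) (κ - LinearMap.id) (p := p) (q := p + 1)
      (fun v hv => hκ4 v hv) hc
    rw [LinearMap.rTensor_sub, LinearMap.rTensor_id] at this
    exact this
  have hc'bd : ∀ (m : SimplexCategory) (a : m ⟶ n), ¬ Function.Surjective a.toOrderHom →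
      A.pl B a c' = 0 := by
    intro m a ha
    rw [hc'def, pl, A.lT_rT]
    exact A.rT_zero κ hκ3 (hbd m a ha)
  have hc'π : A.pj π n c' = 0 := by
    rw [hc'def, pj, A.lT_rT]
    exact A.rT_zero κ hκ3 hπ
  -- flatness
  have hlam : ∀ ξ : A.V →ₗ[K] K, A.lam ξ c' ∈ SDGA.J π n := by
    intro ξ
    refine ⟨?_, fun m a ha => ?_⟩
    · have := A.lam_lT ξ (π.f n).toLinearMap c'
      rw [AlgHom.toLinearMap_apply] at this
      rw [← this]
      have h2 : LinearMap.lTensor A.V (π.f n).toLinearMap c' = 0 := hc'π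
      rw [h2, map_zero]
    · have := A.lam_lT ξ (B.map a).toLinearMap c'
      rw [AlgHom.toLinearMap_apply] at this
      rw [← this]
      have h2 : LinearMap.lTensor A.V (B.map a).toLinearMap c' = 0 := hc'bd m a ha
      rw [h2, map_zero]
  have hflat : LinearMap.lTensor A.V (B.d n ∘ₗ h + h ∘ₗ B.d n) c' = c' :=
    A.lT_id_of_mem (SDGA.J π n) hlam _ (fun e he => hh e he)
  rw [LinearMap.lTensor_add, LinearMap.add_apply, ← A.lT_lT, ← A.lT_lT] at hflat
  have hmapJ : ∀ (m : SimplexCategory) (a : m ⟶ n), ¬ Function.Surjective a.toOrderHom →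
      (B.map a).toLinearMap ∘ₗ h = 0 := by
    intro m a ha
    ext x
    exact (hJ x).2 m a ha
  have hpiJ : (π.f n).toLinearMap ∘ₗ h = 0 := by
    ext x
    exact (hJ x).1
  refine ⟨- LinearMap.lTensor A.V h c', Submodule.neg_mem _ (A.lT_Dg_lower h h0 h1 (by norm_num) hc'Dg),
    Submodule.neg_mem _ (A.lT_Fil h hc'Fil), fun m a ha => ?_, ?_, ?_⟩
  · rw [map_neg, pl, A.lT_lT, hmapJ m a ha, LinearMap.lTensor_zero]; simp
  · rw [map_neg, pj, A.lT_lT, hpiJ, LinearMap.lTensor_zero]; simp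
  · have hadd := A.curv_add (C := B) (p + 1) p (by omega) y (- LinearMap.lTensor A.V h c')
      (Submodule.neg_mem _ (A.lT_Fil h hc'Fil))
    rw [← hcdef] at hadd
    obtain ⟨L, hL⟩ := A.TQ1 (E := B.E n)
    rw [hL, map_neg, map_neg, ← A.lT_rT] at hadd
    -- Bianchi
    have hB := A.bianchi p hy hc
    rw [← hcdef, hL] at hB
    have hLF : ∀ q : ℕ, ∀ x ∈ A.Fil (B.E n) q, LinearMap.rTensor (B.E n) L x ∈
        A.Fil (B.E n) q := by
      intro q x hx
      rw [← hL]
      have := A.TQ_Fil_single 1 0 q (by omega) (fun _ => x) hx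
      simpa using this
    have hB' : LinearMap.lTensor A.V (B.d n) c' - LinearMap.rTensor (B.E n) L c' ∈
        A.Fil (B.E n) (p + 1) := by
      have e : LinearMap.lTensor A.V (B.d n) c' - LinearMap.rTensor (B.E n) L c' =
          (LinearMap.lTensor A.V (B.d n) c - LinearMap.rTensor (B.E n) L c) +
          (LinearMap.lTensor A.V (B.d n) (c' - c) - LinearMap.rTensor (B.E n) L (c' - c)) := by
        rw [map_sub, map_sub]; abel
      rw [e]
      exact Submodule.add_mem _ hB (Submodule.sub_mem _ (A.lT_Fil _ hcc') (hLF _ _ hcc'))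
    have hB'' := A.lT_Fil h hB'
    rw [map_sub] at hB''
    have e : A.curv B n (p + 1) (y + - LinearMap.lTensor A.V h c') =
        (A.curv B n (p + 1) (y + - LinearMap.lTensor A.V h c') - c -
          (-(LinearMap.lTensor A.V h (LinearMap.rTensor (B.E n) L c')) +
            -(LinearMap.lTensor A.V (B.d n) (LinearMap.lTensor A.V h c')))) +
        (LinearMap.lTensor A.V h (LinearMap.lTensor A.V (B.d n) c') -
          LinearMap.lTensor A.V h (LinearMap.rTensor (B.E n) L c')) - (c' - c) := by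
      have key : ∀ X c c1 P Q R : A.V ⊗[K] B.E n, P + Q = c1 →
          X = (X - c - (-R + -P)) + (Q - R) - (c1 - c) := by
        intro X c c1 P Q R h
        rw [← h]; abel
      exact key _ _ _ _ _ _ hflat
    rw [e]
    exact Submodule.sub_mem _ (Submodule.add_mem _ hadd hB'') hcc'

end CAInf

end Pool.Agent.Helper4.MCA
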