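import Pool.Agent.Helper4.MCA.Tens
import Pool.Agent.Helper4.MCB.Contraction

/-!
Complete shifted `A_∞`-algebras and the operations on `V ⊗ E`.
-/

open scoped TensorProduct

universe u

namespace Pool.Agent.Helper4.MCA

open MCB

/-- the sign `(-1)^i` -/
def sgn (K : Type u) [Field K] (i : ℤ) : K := if Even i then 1 else -1

/-- The parity involution `x ↦ (-1)^{|x|} x` of a graded vector space. -/
noncomputable def parity {K : Type u} [Field K] {V : Type u} [AddCommGroup V] [Module K V]
    {gr : ℤ → Submodule K V} (h : DirectSum.IsInternal gr) : V →ₗ[K] V :=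
  assemble h (fun i => sgn K i • (gr i).subtype)

/-- Insert the value of `f` on the entries `r, …, r + s - 1` of the sequence `x` at the place `r`,
and apply `ε` to the entries before. -/
def ins {W : Type*} (ε : W → W) (f : (ℕ → W) → W) (r s : ℕ) (x : ℕ → W) (i : ℕ) : W :=
  if i < r then ε (x i) else if i = r then f (fun j => x (r + j)) else x (i + s - 1)

/-- A complete (possibly curved) shifted `A_∞`-algebra over `K`. -/
structure CAInf (K : Type u) [Field K] where
  V : Type u
  [grp : AddCommGroup V]
  [mod : Module K V]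
  gr : ℤ → Submodule K V
  internal : DirectSum.IsInternal gr
  F : ℕ → Submodule K V
  F_anti : Antitone F
  F_one : F 1 = ⊤
  F_prj : ∀ p x, x ∈ F p → ∀ i, prj internal i x ∈ F p
  F_sep : ∀ x, (∀ p, x ∈ F p) → x = 0
  F_complete : ∀ (i : ℤ) (x : ℕ → V), (∀ p, x p ∈ gr i) → (∀ p, x (p + 1) - x p ∈ F p) →
    ∃ y ∈ gr i, ∀ p, y - x p ∈ F p
  Q : ∀ k : ℕ, MultilinearMap K (fun _ : Fin k => V) V
  Q_deg : ∀ (k : ℕ) (i : Fin k → ℤ) (x : Fin k → V), (∀ j, x j ∈ gr (i j)) →
    Q k x ∈ gr (∑ j, i j + 1)
  Q_filt : ∀ (k : ℕ) (a : Fin k → ℕ) (x : Fin k → V), (∀ j, x j ∈ F (a j)) →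
    Q k x ∈ F (∑ j, a j)
  rel : ∀ (n : ℕ) (x : ℕ → V), ∑ s ∈ Finset.range (n + 1), ∑ r ∈ Finset.range (n - s + 1),
    Q (n - s + 1) (fun i => ins (parity internal) (sq (Q s)) r s x i) = 0

attribute [instance] CAInf.grp CAInf.mod

namespace CAInf

variable {K : Type u} [Field K] (A : CAInf K)

/-- parity involution of `A` -/
noncomputable def par : A.V →ₗ[K] A.V := parity A.internal

theorem F_zero : A.F 0 = ⊤ := by
  rw [eq_top_iff, ← A.F_one]; exact A.F_anti (Nat.zero_le _)

variable (E : Type u) [Ring E] [Algebra K E]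

/-- The operation `Q_k ⊗ m_k` on `V ⊗ E`, without signs. -/
noncomputable def TQ (k : ℕ) : MultilinearMap K (fun _ : Fin k => A.V ⊗[K] E) (A.V ⊗[K] E) :=
  T k (A.Q k) (MultilinearMap.mkPiAlgebraFin K k E)

variable {E}

theorem TQ_tmul (k : ℕ) (v : ℕ → A.V) (e : ℕ → E) :
    A.TQ E k (fun i => v i ⊗ₜ[K] e i) = A.Q k (fun i => v i) ⊗ₜ[K] Pr k e := by
  rw [TQ, T_tmul k (A.Q k) (MultilinearMap.mkPiAlgebraFin K k E) (fun i => v i) (fun i => e i),
    MultilinearMap.mkPiAlgebraFin_apply, Pr_ofFn]

/-- pure tensors -/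
def pure (A : CAInf K) (E : Type u) [Ring E] [Algebra K E] : Set (A.V ⊗[K] E) :=
  {x | ∃ v e, x = v ⊗ₜ[K] e}

theorem span_pure : Submodule.span K (A.pure E) = ⊤ := by
  rw [← TensorProduct.span_tmul_eq_top K A.V E]
  congr 1
  ext x
  simp only [pure, Set.mem_ofPred_eq]
  constructor
  · rintro ⟨v, e, rfl⟩; exact ⟨v, e, rfl⟩
  · rintro ⟨v, e, rfl⟩; exact ⟨v, e, rfl⟩

theorem choose_pure (k : ℕ) (x : ℕ → A.V ⊗[K] E) (hx : ∀ i < k, x i ∈ A.pure E) :
    ∃ (v : ℕ → A.V) (e : ℕ → E), ∀ i < k, x i = v i ⊗ₜ[K] e i := by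
  have : ∀ i, ∃ (v : A.V) (e : E), i < k → x i = v ⊗ₜ[K] e := by
    intro i
    by_cases h : i < k
    · obtain ⟨v, e, h'⟩ := hx i h
      exact ⟨v, e, fun _ => h'⟩
    · exact ⟨0, 0, fun h' => absurd h' h⟩
  choose v e h using this
  exact ⟨v, e, fun i hi => h i hi⟩

/-- Reduction to pure tensors. -/
theorem reduce_pure {U : Type*} [AddCommGroup U] [Module K U] (Φ : (ℕ → A.V ⊗[K] E) → U) (n : ℕ)
    (hlin : ∀ m < n, ∀ x, Lin K Φ m x)
    (hcongr : ∀ x y, (∀ i < n, x i = y i) → Φ x = Φ y)
    (h : ∀ (v : ℕ → A.V) (e : ℕ → E), Φ (fun i => v i ⊗ₜ[K] e i) = 0) (x : ℕ → A.V ⊗[K] E) :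
    Φ x = 0 := by
  have := reduce Φ n (fun _ => A.pure E) ⊥ hlin (fun x hx => by
    obtain ⟨v, e, hve⟩ := A.choose_pure n x hx
    rw [Submodule.mem_bot, hcongr x _ hve]
    exact h v e) x (fun i _ => by rw [span_pure]; trivial)
  simpa using this

/-- inserting is linear in each entry -/
theorem ins_lin {W : Type*} [AddCommGroup W] [Module K W] (ε : W →ₗ[K] W) {s : ℕ}
    (f : MultilinearMap K (fun _ : Fin s => W) W) (r m n : ℕ) (hr : r ≤ n - s) (hs : s ≤ n)
    (hm : m < n) (x : ℕ → W) :
    ∃ (m' : ℕ) (L : W →ₗ[K] W), m' < n - s + 1 ∧ ∀ a,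
      ins ε (sq f) r s (Function.update x m a) = Function.update (ins ε (sq f) r s x) m' (L a) := by
  by_cases h1 : m < r
  · refine ⟨m, ε, by omega, fun a => ?_⟩
    funext i
    by_cases hi : i = m
    · subst hi
      simp [ins, h1]
    · rw [Function.update_of_ne hi]
      unfold ins
      by_cases h2 : i < r
      · rw [if_pos h2, if_pos h2, Function.update_of_ne hi]
      · rw [if_neg h2, if_neg h2]
        by_cases h3 : i = r
        · rw [if_pos h3, if_pos h3]
          congr 1
          funext j
          rw [Function.update_of_ne (by omega)]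
        · rw [if_neg h3, if_neg h3, Function.update_of_ne (by omega)]
  · by_cases h2 : m < r + s
    · obtain ⟨L, hL⟩ := Lin_sq f (m := m - r) (by omega) (fun j => x (r + j))
      refine ⟨r, L, by omega, fun a => ?_⟩
      funext i
      by_cases hi : i = r
      · subst hi
        rw [Function.update_self, ← hL]
        unfold ins
        rw [if_neg (lt_irrefl _), if_pos rfl]
        congr 1
        funext j
        by_cases hj : j = m - i
        · subst hj
          rw [Function.update_self]
          have : i + (m - i) = m := by omega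
          rw [this, Function.update_self]
        · rw [Function.update_of_ne hj, Function.update_of_ne (by omega)]
      · rw [Function.update_of_ne hi]
        unfold ins
        rw [if_neg hi, if_neg hi]
        by_cases h3 : i < r
        · rw [if_pos h3, if_pos h3, Function.update_of_ne (by omega)]
        · rw [if_neg h3, if_neg h3, Function.update_of_ne (by omega)]
    · refine ⟨m + 1 - s, LinearMap.id, by omega, fun a => ?_⟩
      funext i
      by_cases hi : i = m + 1 - s
      · subst hi
        rw [Function.update_self]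
        unfold ins
        rw [if_neg (by omega), if_neg (by omega)]
        have : m + 1 - s + s - 1 = m := by omega
        rw [this, Function.update_self]; rfl
      · rw [Function.update_of_ne hi]
        unfold ins
        by_cases h3 : i < r
        · rw [if_pos h3, if_pos h3, Function.update_of_ne (by omega)]
        · rw [if_neg h3, if_neg h3]
          by_cases h4 : i = r
          · rw [if_pos h4, if_pos h4]
            -- here the sequence is changed only outside of the entries `< s`
            unfold sq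
            congr 1
            funext j
            exact Function.update_of_ne (by have := j.isLt; omega) _ _
          · rw [if_neg h4, if_neg h4, Function.update_of_ne (by omega)]

/-- The involution on `V ⊗ E`. -/
noncomputable def eps (A : CAInf K) (E : Type u) [Ring E] [Algebra K E] :
    A.V ⊗[K] E →ₗ[K] A.V ⊗[K] E := LinearMap.rTensor E A.par

/-- The `A_∞` relations hold on `V ⊗ E`. -/
theorem relT (n : ℕ) (x : ℕ → A.V ⊗[K] E) :
    ∑ s ∈ Finset.range (n + 1), ∑ r ∈ Finset.range (n - s + 1),
      A.TQ E (n - s + 1) (fun i => ins (A.eps E) (sq (A.TQ E s)) r s x i) = 0 := by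
  refine A.reduce_pure (fun x => ∑ s ∈ Finset.range (n + 1), ∑ r ∈ Finset.range (n - s + 1),
      A.TQ E (n - s + 1) (fun i => ins (A.eps E) (sq (A.TQ E s)) r s x i)) n ?_ ?_ ?_ x
  · intro m hm x
    refine Lin.sum _ (fun s hs => Lin.sum _ (fun r hr => ?_))
    have hs' := Finset.mem_range.1 hs
    have hr' := Finset.mem_range.1 hr
    obtain ⟨m', L, hm', hL⟩ := ins_lin (A.eps E) (A.TQ E s) r m n (by omega) (by omega) hm x
    exact Lin.pre (Φ := sq (A.TQ E (n - s + 1))) (Lin_sq _ hm' _) hL
  · intro x y hxy
    refine Finset.sum_congr rfl (fun s hs => Finset.sum_congr rfl (fun r hr => ?_))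
    have hs' := Finset.mem_range.1 hs
    have hr' := Finset.mem_range.1 hr
    congr 1
    funext i
    unfold ins
    split_ifs with h1 h2
    · rw [hxy i (by omega)]
    · unfold sq
      congr 1
      funext j
      exact hxy _ (by omega)
    · exact hxy _ (by omega)
  · intro v e
    have key : ∀ s ∈ Finset.range (n + 1), ∀ r ∈ Finset.range (n - s + 1),
        A.TQ E (n - s + 1) (fun i => ins (A.eps E) (sq (A.TQ E s)) r s
          (fun i => v i ⊗ₜ[K] e i) i) =
        A.Q (n - s + 1) (fun i => ins (parity A.internal) (sq (A.Q s)) r s v i) ⊗ₜ[K] Pr n e := by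
      intro s hs r hr
      have hs' := Finset.mem_range.1 hs
      have hr' := Finset.mem_range.1 hr
      have h1 : (fun i : Fin (n - s + 1) => ins (A.eps E) (sq (A.TQ E s)) r s
          (fun i => v i ⊗ₜ[K] e i) i) = fun i : Fin (n - s + 1) =>
            ins (parity A.internal) (sq (A.Q s)) r s v i ⊗ₜ[K]
            (if (i : ℕ) < r then e i else if (i : ℕ) = r then Pr s (fun j => e (r + j))
              else e (i + s - 1)) := by
        funext i
        unfold ins
        split_ifs with h1 h2
        · rfl
        · exact A.TQ_tmul s (fun j => v (r + j)) (fun j => e (r + j))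
        · rfl
      rw [h1, A.TQ_tmul (n - s + 1) (fun i => ins (parity A.internal) (sq (A.Q s)) r s v i)
        (fun i => (if (i : ℕ) < r then e i else if (i : ℕ) = r then Pr s (fun j => e (r + j))
              else e (i + s - 1))), Pr_ins (by omega) (by omega)]
    rw [Finset.sum_congr rfl (fun s hs => Finset.sum_congr rfl (fun r hr => key s hs r hr))]
    simp only [← TensorProduct.sum_tmul]
    rw [A.rel n v, TensorProduct.zero_tmul]

/-- Naturality in the algebra. -/
theorem TQ_nat {E' : Type u} [Ring E'] [Algebra K E'] (φ : E →ₐ[K] E') (k : ℕ)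
    (x : ℕ → A.V ⊗[K] E) :
    LinearMap.lTensor A.V φ.toLinearMap (A.TQ E k (fun i => x i)) =
      A.TQ E' k (fun i => LinearMap.lTensor A.V φ.toLinearMap (x i)) := by
  rw [← sub_eq_zero]
  refine A.reduce_pure (fun x => LinearMap.lTensor A.V φ.toLinearMap (A.TQ E k (fun i => x i)) -
      A.TQ E' k (fun i => LinearMap.lTensor A.V φ.toLinearMap (x i))) k ?_ ?_ ?_ x
  · intro m hm x
    refine Lin.sub (Lin.post (Lin_sq (A.TQ E k) hm x) _) ?_
    refine Lin.pre (Φ := sq (A.TQ E' k)) (y := fun x i => LinearMap.lTensor A.V φ.toLinearMap (x i))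
      (m' := m) (Lin_sq _ hm _) (L := LinearMap.lTensor A.V φ.toLinearMap) ?_
    intro a
    funext i
    by_cases hi : i = m
    · subst hi; simp
    · simp [Function.update_of_ne hi]
  · intro x y hxy
    have h1 : (fun i : Fin k => x i) = fun i : Fin k => y i := funext fun i => hxy i i.isLt
    have h2 : (fun i : Fin k => LinearMap.lTensor A.V φ.toLinearMap (x i)) =
      fun i : Fin k => LinearMap.lTensor A.V φ.toLinearMap (y i) :=
        funext fun i => by rw [hxy i i.isLt]
    simp only [h1, h2]
  · intro v e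
    have hP : φ (Pr k e) = Pr k (fun i => φ (e i)) := by
      induction k with
      | zero => simp [Pr]
      | succ k ih => rw [Pr, Pr, map_mul, ih]
    simp only [LinearMap.lTensor_tmul, AlgHom.toLinearMap_apply]
    rw [A.TQ_tmul, A.TQ_tmul k v (fun i => φ (e i)), LinearMap.lTensor_tmul,
      AlgHom.toLinearMap_apply, hP, sub_self]

/-- The Leibniz rule. -/
theorem TQ_leibniz (dE εE : E →ₗ[K] E) (h1 : dE 1 = 0) (h1' : εE 1 = 1)
    (hd : ∀ x y, dE (x * y) = dE x * y + εE x * dE y) (hε : ∀ x y, εE (x * y) = εE x * εE y)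
    (k : ℕ) (x : ℕ → A.V ⊗[K] E) :
    LinearMap.lTensor A.V dE (A.TQ E k (fun i => x i)) =
      ∑ r ∈ Finset.range k, A.TQ E k (fun i => if (i : ℕ) < r then LinearMap.lTensor A.V εE (x i)
        else if (i : ℕ) = r then LinearMap.lTensor A.V dE (x i) else x i) := by
  rw [← sub_eq_zero]
  refine A.reduce_pure (fun x => LinearMap.lTensor A.V dE (A.TQ E k (fun i => x i)) -
      ∑ r ∈ Finset.range k, A.TQ E k (fun i => if (i : ℕ) < r then LinearMap.lTensor A.V εE (x i)
        else if (i : ℕ) = r then LinearMap.lTensor A.V dE (x i) else x i)) k ?_ ?_ ?_ x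
  · intro m hm x
    refine Lin.sub (Lin.post (Lin_sq (A.TQ E k) hm x) _) (Lin.sum _ (fun r _ => ?_))
    refine Lin.pre (Φ := sq (A.TQ E k)) (y := fun x i => if i < r then LinearMap.lTensor A.V εE (x i)
        else if i = r then LinearMap.lTensor A.V dE (x i) else x i)
      (m' := m) (Lin_sq _ hm _) (L := if m < r then LinearMap.lTensor A.V εE
        else if m = r then LinearMap.lTensor A.V dE else LinearMap.id) ?_
    intro a
    funext i
    by_cases hi : i = m
    · subst hi
      simp only [Function.update_self]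
      split_ifs <;> rfl
    · simp only [Function.update_of_ne hi]
  · intro x y hxy
    have h1 : (fun i : Fin k => x i) = fun i : Fin k => y i := funext fun i => hxy i i.isLt
    simp only [h1]
    congr 1
    refine Finset.sum_congr rfl (fun r _ => ?_)
    congr 1
    funext i
    rw [hxy i i.isLt]
  · intro v e
    have hPε : ∀ k, εE (Pr k e) = Pr k (fun i => εE (e i)) := by
      intro k
      induction k with
      | zero => simpa [Pr] using h1'
      | succ k ih => rw [Pr, Pr, hε, ih]
    have hP : dE (Pr k e) = ∑ r ∈ Finset.range k, Pr k (fun i => if i < r then εE (e i)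
        else if i = r then dE (e i) else e i) := by
      induction k with
      | zero => simpa [Pr] using h1
      | succ k ih =>
        rw [Pr, hd, ih, Finset.sum_range_succ, Finset.sum_mul]
        congr 1
        · refine Finset.sum_congr rfl (fun r hr => ?_)
          have hr' := Finset.mem_range.1 hr
          rw [Pr]
          congr 1
          rw [if_neg (by omega), if_neg (by omega)]
        · rw [Pr, hPε]
          congr 1
          · refine Pr_congr (fun i hi => ?_)
            rw [if_pos hi]
          · simp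
    have hs : ∀ r ∈ Finset.range k, A.TQ E k (fun i => if (i : ℕ) < r then
        LinearMap.lTensor A.V εE (v i ⊗ₜ[K] e i)
        else if (i : ℕ) = r then LinearMap.lTensor A.V dE (v i ⊗ₜ[K] e i) else v i ⊗ₜ[K] e i) =
        A.Q k (fun i => v i) ⊗ₜ[K] Pr k (fun i => if i < r then εE (e i)
        else if i = r then dE (e i) else e i) := by
      intro r _
      rw [← A.TQ_tmul]
      congr 1
      funext i
      split_ifs <;> simp
    rw [Finset.sum_congr rfl hs, A.TQ_tmul, LinearMap.lTensor_tmul, hP, TensorProduct.tmul_sum,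
      sub_self]

end CAInf

end Pool.Agent.Helper4.MCA
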