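import Pool.Agent.Helper4.MCA.Obstr

/-!
One stage of the successive approximation.
-/

open scoped TensorProduct
open CategoryTheory Simplicial

universe u

namespace Pool.Agent.Helper4.MCA

open MCB

namespace CAInf

variable {K : Type u} [Field K] (A : CAInf K) {B C : SDGA K} (π : SDGA.Hom B C) (τ : B.Cone)

/-- degree zero elements of filtration `p` which project to filtration `p + 1` -/
noncomputable def SS (p : ℕ) (m : SimplexCategory) : Submodule K (A.V ⊗[K] B.E m) :=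
  A.Dg (B.deg m) 0 ⊓ A.Fil (B.E m) p ⊓ (A.Fil (C.E m) (p + 1)).comap (A.pj π m)

/-- restriction of the pullback to `SS` -/
noncomputable def plS (p : ℕ) {m n : SimplexCategory} (a : m ⟶ n) :
    ↥(A.SS π p n) →ₗ[K] ↥(A.SS π p m) :=
  (A.pl B a).restrict (by
    rintro x ⟨⟨h1, h2⟩, h3⟩
    refine ⟨⟨A.pl_Dg a h1, A.lT_Fil _ h2⟩, ?_⟩
    change A.pj π m (A.pl B a x) ∈ A.Fil (C.E m) (p + 1)
    rw [A.pj_pl]
    exact A.lT_Fil _ h3)

/-- multiplication by a form of degree `0` -/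
noncomputable def mulS (p : ℕ) {n : SimplexCategory} (b : B.E n) (hb : b ∈ B.deg n 0) :
    ↥(A.SS π p n) →ₗ[K] ↥(A.SS π p n) :=
  (LinearMap.lTensor A.V (LinearMap.mulLeft K b)).restrict (by
    rintro x ⟨⟨h1, h2⟩, h3⟩
    refine ⟨⟨A.lT_Dg 0 _ (fun j e he => ?_) (by simp) h1, A.lT_Fil _ h2⟩, ?_⟩
    · have := B.mul_mem n 0 j b e hb he
      rw [zero_add] at this
      exact this
    · change A.pj π n (LinearMap.lTensor A.V (LinearMap.mulLeft K b) x) ∈ A.Fil (C.E n) (p + 1)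
      have : A.pj π n (LinearMap.lTensor A.V (LinearMap.mulLeft K b) x) =
          LinearMap.lTensor A.V (LinearMap.mulLeft K (π.f n b)) (A.pj π n x) := by
        unfold pj
        rw [A.lT_lT, A.lT_lT]
        congr 2
        ext x
        simp
      rw [this]
      exact A.lT_Fil _ h3)

/-- The subquotient as a simplicial abelian group with contraction. -/
noncomputable def grGrp (p : ℕ) : SGrp.{u} where
  M m := ↥(A.SS π p m) ⧸ (A.Fil (B.E m) (p + 1)).comap (A.SS π p m).subtype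
  map {m n} a := (Submodule.mapQ _ _ (A.plS π p a) (by
    intro x hx
    exact A.lT_Fil (B.map a).toLinearMap hx)).toAddMonoidHom
  map_id n x := by
    obtain ⟨x, rfl⟩ := Submodule.Quotient.mk_surjective _ x
    change Submodule.Quotient.mk _ = _
    congr 1
    apply Subtype.ext
    exact A.pl_id n x.1
  map_comp a b x := by
    obtain ⟨x, rfl⟩ := Submodule.Quotient.mk_surjective _ x
    change Submodule.Quotient.mk _ = Submodule.Quotient.mk _
    congr 1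
    apply Subtype.ext
    exact A.pl_comp a b x.1
  T {n} g := (Submodule.mapQ _ _ (A.mulS π p (B.map g τ.τ) (B.map_mem g 0 _ τ.mem)) (by
    intro x hx
    exact A.lT_Fil (LinearMap.mulLeft K (B.map g τ.τ)) hx)).toAddMonoidHom
  T_nat {m n} a g x := by
    obtain ⟨x, rfl⟩ := Submodule.Quotient.mk_surjective _ x
    change Submodule.Quotient.mk _ = Submodule.Quotient.mk _
    congr 1
    apply Subtype.ext
    change LinearMap.lTensor A.V _ (LinearMap.lTensor A.V _ x.1) =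
      LinearMap.lTensor A.V _ (LinearMap.lTensor A.V _ x.1)
    rw [A.lT_lT, A.lT_lT]
    congr 2
    ext y
    simp only [LinearMap.comp_apply, LinearMap.mulLeft_apply, AlgHom.toLinearMap_apply, map_mul,
      B.map_comp]
  T_zero n x := by
    obtain ⟨x, rfl⟩ := Submodule.Quotient.mk_surjective _ x
    change Submodule.Quotient.mk _ = _
    congr 1
    apply Subtype.ext
    change LinearMap.lTensor A.V (LinearMap.mulLeft K (B.map _ τ.τ)) x.1 = x.1
    have : LinearMap.mulLeft K (B.map (SimplexCategory.const n ⦋1⦌ 0) τ.τ) = LinearMap.id := by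
      ext y; simp [τ.zero]
    rw [this, LinearMap.lTensor_id]; rfl
  T_one n x := by
    obtain ⟨x, rfl⟩ := Submodule.Quotient.mk_surjective _ x
    change Submodule.Quotient.mk _ = _
    have : A.mulS π p (B.map (SimplexCategory.const n ⦋1⦌ 1) τ.τ) (B.map_mem _ 0 _ τ.mem) x = 0 := by
      apply Subtype.ext
      change LinearMap.lTensor A.V (LinearMap.mulLeft K (B.map _ τ.τ)) x.1 = 0
      have : LinearMap.mulLeft K (B.map (SimplexCategory.const n ⦋1⦌ 1) τ.τ) = 0 := by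
        ext y; simp [τ.one]
      rw [this, LinearMap.lTensor_zero]; rfl
    rw [this]; rfl

include τ in
/-- Filling modulo `p + 1`. -/
theorem fill_gr (p : ℕ) {n : ℕ} (e : Fin (n + 2) → A.V ⊗[K] B.E ⦋n⦌)
    (he : ∀ i, e i ∈ A.SS π p ⦋n⦌)
    (hcompat : ∀ (i j : Fin (n + 2)) (m : SimplexCategory) (a b : m ⟶ ⦋n⦌),
      a ≫ SimplexCategory.δ i = b ≫ SimplexCategory.δ j →
        A.pl B a (e i) - A.pl B b (e j) ∈ A.Fil (B.E m) (p + 1)) :
    ∃ w ∈ A.SS π p ⦋n + 1⦌, ∀ i, A.pl B (SimplexCategory.δ i) w - e i ∈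
      A.Fil (B.E ⦋n⦌) (p + 1) := by
  obtain ⟨y, hy⟩ := (A.grGrp π τ p).fill (n := n)
    (fun i => Submodule.Quotient.mk ⟨e i, he i⟩) (by
      intro i j m a b hab
      exact (Submodule.Quotient.eq _).2 (hcompat i j m a b hab))
  obtain ⟨w, rfl⟩ := Submodule.Quotient.mk_surjective _ y
  refine ⟨w.1, w.2, fun i => ?_⟩
  have h := hy i
  have h' : (Submodule.Quotient.mk (A.plS π p (SimplexCategory.δ i) w) :
      ↥(A.SS π p ⦋n⦌) ⧸ (A.Fil (B.E ⦋n⦌) (p + 1)).comap (A.SS π p ⦋n⦌).subtype) =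
      Submodule.Quotient.mk ⟨e i, he i⟩ := h
  have h'' := (Submodule.Quotient.eq _).1 h'
  exact h''

/-- The data of the target at stage `p + 1`, correcting the image. -/
theorem fix_image (hs : ∀ n i y, y ∈ C.deg n i → ∃ x ∈ B.deg n i, π.f n x = y)
    (p : ℕ) {n : SimplexCategory} {y : A.V ⊗[K] B.E n} {Z : A.V ⊗[K] C.E n}
    (hy : y ∈ A.Dg (B.deg n) 0) (hZ : Z ∈ A.Dg (C.deg n) 0)
    (hyZ : A.pj π n y - Z ∈ A.Fil (C.E n) p) :
    ∃ w ∈ A.Dg (B.deg n) 0, w ∈ A.Fil (B.E n) p ∧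
      A.pj π n (y + w) - Z ∈ A.Fil (C.E n) (p + 1) := by
  obtain ⟨κ, hκ1, hκ2, hκ3, hκ4⟩ := A.exists_kappa p
  obtain ⟨w, hw, hwz⟩ := A.pj_surj π hs (Submodule.sub_mem _ hZ (A.pj_Dg π hy))
  refine ⟨LinearMap.rTensor (B.E n) κ w, A.rT_Dg κ hκ1 hw, ?_, ?_⟩
  · refine A.rT_Fil κ (p := 0) (fun v _ => hκ2 v) ?_
    rw [A.Fil_zero]; trivial
  · have h1 : A.pj π n (LinearMap.rTensor (B.E n) κ w) =
        LinearMap.rTensor (C.E n) κ (Z - A.pj π n y) := by
      rw [← hwz, pj, A.lT_rT]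
    rw [map_add, h1]
    have h2 : LinearMap.rTensor (C.E n) κ (Z - A.pj π n y) - (Z - A.pj π n y) ∈
        A.Fil (C.E n) (p + 1) := by
      have := A.rT_Fil (E := C.E n) (κ - LinearMap.id) (p := p) (q := p + 1)
        (fun v hv => hκ4 v hv) (x := Z - A.pj π n y) (by
          rw [← neg_sub]; exact Submodule.neg_mem _ hyZ)
      rw [LinearMap.rTensor_sub, LinearMap.rTensor_id] at this
      exact this
    have e : ∀ a b c : A.V ⊗[K] C.E n, a + b - c = b - (c - a) := by intros; abel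
    rw [e]
    exact h2

/-- curvature of congruent elements -/
theorem curv_step (p : ℕ) {D : SDGA K} {n : SimplexCategory} {y y' : A.V ⊗[K] D.E n}
    (h : y' - y ∈ A.Fil (D.E n) p) (hy : A.curv D n p y ∈ A.Fil (D.E n) p) :
    A.curv D n (p + 1) y' ∈ A.Fil (D.E n) p := by
  have h1 := A.curv_congr (C := D) (p + 1) p h
  have h2 := A.curv_le (C := D) p (p + 1) (Nat.le_succ p) y
  have := Submodule.add_mem _ (Submodule.add_mem _ h1 h2) hy
  have e : A.curv D n (p + 1) y' = A.curv D n (p + 1) y' - A.curv D n (p + 1) y +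
      (A.curv D n (p + 1) y - A.curv D n p y) + A.curv D n p y := by abel
  rw [e]; exact this

theorem curv_congr' (N p : ℕ) {D : SDGA K} {n : SimplexCategory} {y y' : A.V ⊗[K] D.E n}
    (h : y - y' ∈ A.Fil (D.E n) p) (hy : A.curv D n N y' ∈ A.Fil (D.E n) p) :
    A.curv D n N y ∈ A.Fil (D.E n) p := by
  have := Submodule.add_mem _ (A.curv_congr (C := D) N p h) hy
  rwa [sub_add_cancel] at this

variable (hs : ∀ n i y, y ∈ C.deg n i → ∃ x ∈ B.deg n i, π.f n x = y)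
  (hcon : ∀ n : SimplexCategory, ∃ h : B.E n →ₗ[K] B.E n,
    (∀ i, ∀ x ∈ B.deg n (i + 1), h x ∈ B.deg n i) ∧ (∀ x ∈ B.deg n 0, h x = 0) ∧
      (∀ x, h x ∈ SDGA.J π n) ∧ ∀ x ∈ SDGA.J π n, B.d n (h x) + h (B.d n x) = x)

include hs hcon in
theorem stage_zero (p : ℕ) {y : A.V ⊗[K] B.E ⦋0⦌} {Z : A.V ⊗[K] C.E ⦋0⦌}
    (hy : y ∈ A.Dg (B.deg _) 0) (hyc : A.curv B _ p y ∈ A.Fil _ p)
    (hZ : Z ∈ A.Dg (C.deg _) 0) (hZc : A.curv C _ (p + 1) Z ∈ A.Fil _ (p + 1))
    (hyZ : A.pj π _ y - Z ∈ A.Fil _ p) :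
    ∃ y' ∈ A.Dg (B.deg _) 0, y' - y ∈ A.Fil _ p ∧ A.pj π _ y' - Z ∈ A.Fil _ (p + 1) ∧
      A.curv B _ (p + 1) y' ∈ A.Fil _ (p + 1) := by
  obtain ⟨w, hw1, hw2, hw3⟩ := A.fix_image π hs p hy hZ hyZ
  obtain ⟨h, h1, h0, hJ, hh⟩ := hcon ⦋0⦌
  obtain ⟨u, hu1, hu2, hu3, hu4, hu5⟩ := A.obstr π h h1 h0 hJ hh p (y := y + w)
    (Submodule.add_mem _ hy hw1) (A.curv_step p (by rwa [add_sub_cancel_left]) hyc)
    (by
      intro m a ha
      exfalso
      apply ha
      intro j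
      exact ⟨0, Subsingleton.elim (α := Fin 1) _ _⟩)
    (by rw [A.pj_curv]; exact A.curv_congr' _ _ hw3 hZc)
  refine ⟨y + w + u, Submodule.add_mem _ (Submodule.add_mem _ hy hw1) hu1, ?_, ?_, hu5⟩
  · have e : y + w + u - y = w + u := by abel
    rw [e]; exact Submodule.add_mem _ hw2 hu2
  · rw [map_add, hu4, add_zero]; exact hw3

include τ hs hcon in
theorem stage_succ (p : ℕ) {n : ℕ} {y : A.V ⊗[K] B.E ⦋n + 1⦌} {Z : A.V ⊗[K] C.E ⦋n + 1⦌}
    {X : Fin (n + 2) → A.V ⊗[K] B.E ⦋n⦌}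
    (hy : y ∈ A.Dg (B.deg _) 0) (hyc : A.curv B _ p y ∈ A.Fil _ p)
    (hZ : Z ∈ A.Dg (C.deg _) 0) (hZc : A.curv C _ (p + 1) Z ∈ A.Fil _ (p + 1))
    (hX : ∀ i, X i ∈ A.Dg (B.deg _) 0) (hXc : ∀ i, A.curv B _ (p + 1) (X i) ∈ A.Fil _ (p + 1))
    (hyZ : A.pj π _ y - Z ∈ A.Fil _ p)
    (hyX : ∀ i, A.pl B (SimplexCategory.δ i) y - X i ∈ A.Fil _ p)
    (hXZ : ∀ i, A.pj π _ (X i) - A.pl C (SimplexCategory.δ i) Z ∈ A.Fil _ (p + 1))
    (hcompat : ∀ (i j : Fin (n + 2)) (m : SimplexCategory) (a b : m ⟶ ⦋n⦌),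
      a ≫ SimplexCategory.δ i = b ≫ SimplexCategory.δ j →
        A.pl B a (X i) - A.pl B b (X j) ∈ A.Fil (B.E m) (p + 1)) :
    ∃ y' ∈ A.Dg (B.deg _) 0, y' - y ∈ A.Fil _ p ∧ A.pj π _ y' - Z ∈ A.Fil _ (p + 1) ∧
      (∀ i, A.pl B (SimplexCategory.δ i) y' - X i ∈ A.Fil _ (p + 1)) ∧
      A.curv B _ (p + 1) y' ∈ A.Fil _ (p + 1) := by
  obtain ⟨w, hw1, hw2, hw3⟩ := A.fix_image π hs p hy hZ hyZ
  set y1 := y + w with hy1
  have hy1D : y1 ∈ A.Dg (B.deg _) 0 := Submodule.add_mem _ hy hw1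
  -- the errors on the faces
  obtain ⟨v, hv, hve⟩ := A.fill_gr π τ p
    (fun i => X i - A.pl B (SimplexCategory.δ i) y1) (by
      intro i
      refine ⟨⟨Submodule.sub_mem _ (hX i) (A.pl_Dg _ hy1D), ?_⟩, ?_⟩
      · have e : X i - A.pl B (SimplexCategory.δ i) y1 =
            -(A.pl B (SimplexCategory.δ i) y - X i) - A.pl B (SimplexCategory.δ i) w := by
          rw [hy1, map_add]; abel
        rw [e]
        exact Submodule.sub_mem _ (Submodule.neg_mem _ (hyX i)) (A.lT_Fil _ hw2)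
      · change A.pj π _ (X i - A.pl B (SimplexCategory.δ i) y1) ∈ A.Fil (C.E ⦋n⦌) (p + 1)
        rw [map_sub, A.pj_pl]
        have e : A.pj π _ (X i) - A.pl C (SimplexCategory.δ i) (A.pj π _ y1) =
            (A.pj π _ (X i) - A.pl C (SimplexCategory.δ i) Z) -
            A.pl C (SimplexCategory.δ i) (A.pj π _ y1 - Z) := by
          rw [map_sub]; abel
        rw [e]
        exact Submodule.sub_mem _ (hXZ i) (A.lT_Fil _ hw3))
    (by
      intro i j m a b hab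
      rw [map_sub, map_sub, ← A.pl_comp, ← A.pl_comp, hab]
      have e : ∀ a b c : A.V ⊗[K] B.E m, a - c - (b - c) = a - b := by intros; abel
      rw [e]
      exact hcompat i j m a b hab)
  obtain ⟨⟨hv1, hv2⟩, hv3⟩ := hv
  change A.pj π _ v ∈ A.Fil (C.E ⦋n + 1⦌) (p + 1) at hv3
  set y2 := y1 + v with hy2
  have hy2D : y2 ∈ A.Dg (B.deg _) 0 := Submodule.add_mem _ hy1D hv1
  have hy2y : y2 - y ∈ A.Fil (B.E _) p := by
    have e : y2 - y = w + v := by rw [hy2, hy1]; abel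
    rw [e]; exact Submodule.add_mem _ hw2 hv2
  have hface : ∀ i, A.pl B (SimplexCategory.δ i) y2 - X i ∈ A.Fil (B.E _) (p + 1) := by
    intro i
    have e : A.pl B (SimplexCategory.δ i) y2 - X i =
        A.pl B (SimplexCategory.δ i) v - (X i - A.pl B (SimplexCategory.δ i) y1) := by
      rw [hy2, map_add]; abel
    rw [e]; exact hve i
  have himg : A.pj π _ y2 - Z ∈ A.Fil (C.E _) (p + 1) := by
    rw [hy2, map_add, add_sub_right_comm]
    exact Submodule.add_mem _ hw3 hv3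
  obtain ⟨h, h1, h0, hJ, hh⟩ := hcon ⦋n + 1⦌
  obtain ⟨u, hu1, hu2, hu3, hu4, hu5⟩ := A.obstr π h h1 h0 hJ hh p (y := y2)
    hy2D (A.curv_step p hy2y hyc)
    (by
      intro m a ha
      obtain ⟨i, a', rfl⟩ := SimplexCategory.eq_comp_δ_of_not_surjective a ha
      rw [A.pl_comp, A.pl_curv (SimplexCategory.δ i)]
      exact A.lT_Fil _ (A.curv_congr' _ _ (hface i) (hXc i)))
    (by rw [A.pj_curv]; exact A.curv_congr' _ _ himg hZc)
  refine ⟨y2 + u, Submodule.add_mem _ hy2D hu1, ?_, ?_, fun i => ?_, hu5⟩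
  · rw [add_sub_right_comm]; exact Submodule.add_mem _ hy2y hu2
  · rw [map_add, hu4, add_zero]; exact himg
  · have hns : ¬ Function.Surjective (SimplexCategory.δ i).toOrderHom := by
      intro hsur
      obtain ⟨j, hj⟩ := hsur i
      exact Fin.succAbove_ne i j hj
    rw [map_add, hu3 _ _ hns, add_zero]; exact hface i

end CAInf

end Pool.Agent.Helper4.MCA
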