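import Mathlib

/-!
Tensor products of multilinear maps, reduction of multilinear statements to generators.
-/

open scoped TensorProduct

namespace Pool.Agent.Helper4.MCA

section T

variable {K : Type*} [Field K] {V V' E E' : Type*} [AddCommGroup V] [Module K V]
  [AddCommGroup V'] [Module K V'] [AddCommGroup E] [Module K E] [AddCommGroup E'] [Module K E']

/-- The tensor product of two multilinear maps of `n` variables:
`T n f g (v_1 ⊗ e_1, …, v_n ⊗ e_n) = f (v_1, …, v_n) ⊗ g (e_1, …, e_n)`. -/
noncomputable def T : (n : ℕ) → MultilinearMap K (fun _ : Fin n => V) V' →ₗ[K]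
    MultilinearMap K (fun _ : Fin n => E) E' →ₗ[K]
    MultilinearMap K (fun _ : Fin n => V ⊗[K] E) (V' ⊗[K] E')
  | 0 => LinearMap.mk₂ K
      (fun f g => MultilinearMap.constOfIsEmpty K _ ((f fun _ => 0) ⊗ₜ[K] (g fun _ => 0)))
      (by intro f f' g; ext m; simp [TensorProduct.add_tmul])
      (by intro c f g; ext m; simp [TensorProduct.smul_tmul'])
      (by intro f g g'; ext m; simp [TensorProduct.tmul_add])
      (by intro c f g; ext m; simp)
  | (n + 1) => LinearMap.mk₂ K
      (fun f g => ((TensorProduct.lift (T n)) ∘ₗ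
        TensorProduct.map f.curryLeft g.curryLeft).uncurryLeft)
      (by
        intro f f' g
        have : (f + f').curryLeft = f.curryLeft + f'.curryLeft := rfl
        rw [this, TensorProduct.map_add_left, LinearMap.comp_add]; rfl)
      (by
        intro c f g
        have : (c • f).curryLeft = c • f.curryLeft := rfl
        rw [this, TensorProduct.map_smul_left, LinearMap.comp_smul]; rfl)
      (by
        intro f g g'
        have : (g + g').curryLeft = g.curryLeft + g'.curryLeft := rfl
        rw [this, TensorProduct.map_add_right, LinearMap.comp_add]; rfl)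
      (by
        intro c f g
        have : (c • g).curryLeft = c • g.curryLeft := rfl
        rw [this, TensorProduct.map_smul_right, LinearMap.comp_smul]; rfl)

theorem T_tmul (n : ℕ) (f : MultilinearMap K (fun _ : Fin n => V) V')
    (g : MultilinearMap K (fun _ : Fin n => E) E') (v : Fin n → V) (e : Fin n → E) :
    T n f g (fun i => v i ⊗ₜ[K] e i) = f v ⊗ₜ[K] g e := by
  induction n with
  | zero =>
    have hv : (fun _ : Fin 0 => (0 : V)) = v := Subsingleton.elim _ _
    have he : (fun _ : Fin 0 => (0 : E)) = e := Subsingleton.elim _ _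
    change (f fun _ => 0) ⊗ₜ[K] (g fun _ => 0) = _
    rw [hv, he]
  | succ n ih =>
    have h : T (n + 1) f g (fun i => v i ⊗ₜ[K] e i) =
        T n (f.curryLeft (v 0)) (g.curryLeft (e 0)) (fun i => v i.succ ⊗ₜ[K] e i.succ) := rfl
    rw [h, ih]
    simp only [MultilinearMap.curryLeft_apply]
    congr 2 <;> exact Fin.cons_self_tail _

end T

section Lin

variable {K : Type*} [Field K] {W W' U U' : Type*} [AddCommGroup W] [Module K W]
  [AddCommGroup W'] [Module K W'] [AddCommGroup U] [Module K U] [AddCommGroup U'] [Module K U']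

variable (K) in
/-- `Φ` is linear in the `m`-th entry, at `x`. -/
def Lin (Φ : (ℕ → W) → U) (m : ℕ) (x : ℕ → W) : Prop :=
  ∃ L : W →ₗ[K] U, ∀ a, Φ (Function.update x m a) = L a

theorem Lin.add {Φ Φ' : (ℕ → W) → U} {m : ℕ} {x : ℕ → W} (h : Lin K Φ m x) (h' : Lin K Φ' m x) :
    Lin K (fun x => Φ x + Φ' x) m x := by
  obtain ⟨L, hL⟩ := h
  obtain ⟨L', hL'⟩ := h'
  exact ⟨L + L', fun a => by simp [hL, hL']⟩

theorem Lin.sub {Φ Φ' : (ℕ → W) → U} {m : ℕ} {x : ℕ → W} (h : Lin K Φ m x) (h' : Lin K Φ' m x) :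
    Lin K (fun x => Φ x - Φ' x) m x := by
  obtain ⟨L, hL⟩ := h
  obtain ⟨L', hL'⟩ := h'
  exact ⟨L - L', fun a => by simp [hL, hL']⟩

theorem Lin.sum {ι : Type*} (s : Finset ι) {Φ : ι → (ℕ → W) → U} {m : ℕ} {x : ℕ → W}
    (h : ∀ i ∈ s, Lin K (Φ i) m x) : Lin K (fun x => ∑ i ∈ s, Φ i x) m x := by
  classical
  induction s using Finset.induction_on with
  | empty => exact ⟨0, fun a => by simp⟩
  | insert i s hi ih =>
    obtain ⟨L, hL⟩ := h i (Finset.mem_insert_self _ _)
    obtain ⟨L', hL'⟩ := ih (fun j hj => h j (Finset.mem_insert_of_mem hj))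
    refine ⟨L + L', fun a => ?_⟩
    rw [LinearMap.add_apply, ← hL, ← hL']
    exact Finset.sum_insert hi

theorem Lin.post {Φ : (ℕ → W) → U} {m : ℕ} {x : ℕ → W} (h : Lin K Φ m x) (g : U →ₗ[K] U') :
    Lin K (fun x => g (Φ x)) m x := by
  obtain ⟨L, hL⟩ := h
  exact ⟨g ∘ₗ L, fun a => by simp [hL]⟩

/-- evaluation of a multilinear map on a sequence -/
def sq {k : ℕ} (f : MultilinearMap K (fun _ : Fin k => W) U) (x : ℕ → W) : U := f (fun i => x i)

omit [AddCommGroup W] in
theorem sq_update {k : ℕ} (x : ℕ → W) {m : ℕ} (hm : m < k) (a : W) :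
    (fun i : Fin k => Function.update x m a i) =
      Function.update (fun i : Fin k => x i) ⟨m, hm⟩ a := by
  funext i
  by_cases h : i = ⟨m, hm⟩
  · subst h; simp
  · rw [Function.update_of_ne h, Function.update_of_ne]
    intro h'
    exact h (Fin.ext h')

theorem Lin_sq {k : ℕ} (f : MultilinearMap K (fun _ : Fin k => W) U) {m : ℕ} (hm : m < k)
    (x : ℕ → W) : Lin K (sq f) m x := by
  refine ⟨f.toLinearMap (fun i => x i) ⟨m, hm⟩, fun a => ?_⟩
  rw [sq, sq_update x hm]; rfl

theorem Lin.pre {Φ : (ℕ → W') → U} {y : (ℕ → W) → (ℕ → W')} {m m' : ℕ} {x : ℕ → W}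
    (h : Lin K Φ m' (y x)) {L : W →ₗ[K] W'}
    (hy : ∀ a, y (Function.update x m a) = Function.update (y x) m' (L a)) :
    Lin K (fun x => Φ (y x)) m x := by
  obtain ⟨M, hM⟩ := h
  exact ⟨M ∘ₗ L, fun a => by
    change Φ (y (Function.update x m a)) = _
    rw [hy, hM]; rfl⟩

/-- Reduction to generators. -/
theorem reduce (Φ : (ℕ → W) → U) (n : ℕ) (S : ℕ → Set W) (P : Submodule K U)
    (hlin : ∀ m < n, ∀ x, Lin K Φ m x) (h : ∀ x, (∀ i < n, x i ∈ S i) → Φ x ∈ P)
    (x : ℕ → W) (hx : ∀ i < n, x i ∈ Submodule.span K (S i)) : Φ x ∈ P := by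
  have key : ∀ j ≤ n, ∀ x : ℕ → W, (∀ i < j, x i ∈ Submodule.span K (S i)) →
      (∀ i, j ≤ i → i < n → x i ∈ S i) → Φ x ∈ P := by
    intro j
    induction j with
    | zero => exact fun _ x _ hx => h x (fun i hi => hx i (Nat.zero_le _) hi)
    | succ j ih =>
      intro hj x hx1 hx2
      obtain ⟨L, hL⟩ := hlin j (by omega) x
      have hle : Submodule.span K (S j) ≤ P.comap L := by
        rw [Submodule.span_le]
        intro a ha
        change L a ∈ P
        rw [← hL]
        apply ih (by omega)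
        · intro i hi
          rw [Function.update_of_ne (by omega)]
          exact hx1 i (by omega)
        · intro i hi1 hi2
          by_cases hij : i = j
          · subst hij; simpa using ha
          · rw [Function.update_of_ne hij]
            exact hx2 i (by omega) hi2
      have := hle (hx1 j (by omega))
      change L (x j) ∈ P at this
      rw [← hL, Function.update_eq_self] at this
      exact this
  exact key n le_rfl x hx (fun i hi1 hi2 => absurd hi2 (by omega))

end Lin

section Prod

variable {E : Type*} [Monoid E]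

/-- `Pr k e = e 0 * ⋯ * e (k-1)` -/
def Pr : ℕ → (ℕ → E) → E
  | 0, _ => 1
  | (k + 1), e => Pr k e * e k

theorem Pr_add (a b : ℕ) (e : ℕ → E) : Pr (a + b) e = Pr a e * Pr b (fun j => e (a + j)) := by
  induction b with
  | zero => simp [Pr]
  | succ b ih => rw [← add_assoc, Pr, ih, Pr, mul_assoc]

theorem Pr_congr {k : ℕ} {e e' : ℕ → E} (h : ∀ i < k, e i = e' i) : Pr k e = Pr k e' := by
  induction k with
  | zero => rfl
  | succ k ih => rw [Pr, Pr, ih (fun i hi => h i (by omega)), h k (by omega)]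

theorem Pr_ofFn (k : ℕ) (e : ℕ → E) : (List.ofFn (fun i : Fin k => e i)).prod = Pr k e := by
  induction k with
  | zero => simp [Pr]
  | succ k ih =>
    rw [List.ofFn_succ', List.concat_eq_append, List.prod_append, Pr]
    simp only [Fin.val_castSucc, Fin.val_last, List.prod_singleton]
    rw [ih]

theorem Pr_ins {n s r : ℕ} (hr : r ≤ n - s) (hs : s ≤ n) (e : ℕ → E) :
    Pr (n - s + 1) (fun i => if i < r then e i else if i = r then Pr s (fun j => e (r + j))
      else e (i + s - 1)) = Pr n e := by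
  obtain ⟨t, rfl⟩ : ∃ t, n = r + s + t := ⟨n - s - r, by omega⟩
  have e1 : r + s + t - s + 1 = r + (1 + t) := by omega
  rw [e1, Pr_add, Pr_add 1 t, Pr_add (r + s) t, Pr_add r s, mul_assoc]
  congr 1
  · exact Pr_congr (fun i hi => if_pos hi)
  · congr 1
    · simp [Pr]
    · refine Pr_congr (fun i hi => ?_)
      rw [if_neg (by omega), if_neg (by omega)]
      congr 1; omega

end Prod

end Pool.Agent.Helper4.MCA
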